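import Pool.Agent.Lib.MP_6ff8d9_an_h23.N2Rows
import Pool.Agent.Lib.MP_6ff8d9_an_h82.EndC

/-!
# MP_6ff8d9, dimension 2, row XEXT: the second family is extreme
-/

open Metric Set Filter Topology
open scoped ComplexConjugate

namespace Pool.Agent.Lib.MP_6ff8d9_an.N2.H50X

open Pool.Agent.Lib.MP_6ff8d9_an Pool.Agent.Lib.MP_6ff8d9_an.Rat.H82

noncomputable section

lemma cay_re (w : ℂ) : ((1 + w) / (1 - w)).re = (1 - ‖w‖ ^ 2) / ‖1 - w‖ ^ 2 := by
  rw [Complex.div_re, ← Complex.normSq_eq_norm_sq, ← Complex.normSq_eq_norm_sq, ← add_div]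
  congr 1
  rw [Complex.normSq_apply]
  simp
  ring

lemma one_sub_ne {w : ℂ} (hw : ‖w‖ < 1) : 1 - w ≠ 0 := by
  intro h
  rw [← sub_eq_zero.1 h, norm_one] at hw
  exact lt_irrefl _ hw

lemma deriv_bound {f : ℂ → ℂ} {c : ℂ} {R M : ℝ} (hR : 0 < R) (hM : 0 < M)
    (hf : DifferentiableOn ℂ f (ball c R)) (hb : ∀ z ∈ ball c R, |(f z).re| ≤ M) :
    ‖deriv f c‖ ≤ 8 * M / R := by
  have hcc : c ∈ ball c R := mem_ball_self hR
  have hmap : ∀ z ∈ ball (0 : ℂ) R, c + z ∈ ball c R := by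
    intro z hz
    rw [mem_ball_zero_iff] at hz
    rw [mem_ball, dist_eq_norm]
    simpa using hz
  have hF : DifferentiableOn ℂ (fun z => f (c + z) - f c) (ball 0 R) := by
    refine DifferentiableOn.sub_const ?_ _
    exact hf.comp (by fun_prop) hmap
  have h4 : ∀ z ∈ sphere c (R / 2), ‖f z - f c‖ ≤ 4 * M := by
    intro z hz
    have hz2 : ‖z - c‖ = R / 2 := by
      rw [mem_sphere, dist_eq_norm] at hz
      exact hz
    have hz3 : z - c ∈ ball (0 : ℂ) R := by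
      rw [mem_ball_zero_iff, hz2]
      linarith
    have h1 := Complex.borelCaratheodory_zero (M := 2 * M) (by positivity) hF
      (fun x hx => by
        have h2 := abs_le.1 (hb _ (hmap x hx))
        have h3 := abs_le.1 (hb c hcc)
        change (f (c + x) - f c).re ≤ 2 * M
        rw [Complex.sub_re]
        linarith [h2.2, h3.1]) hR hz3 (by simp)
    rw [hz2] at h1
    have h5 : 2 * (2 * M) * (R / 2) / (R - R / 2) = 4 * M := by
      have : R - R / 2 ≠ 0 := by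
        have : R - R / 2 = R / 2 := by ring
        rw [this]
        positivity
      field_simp
      ring
    rw [h5] at h1
    simpa using h1
  have hd : DiffContOnCl ℂ (fun z => f z - f c) (ball c (R / 2)) := by
    refine DifferentiableOn.diffContOnCl ?_
    refine DifferentiableOn.sub_const (hf.mono ?_) _
    rw [closure_ball _ (by positivity)]
    exact closedBall_subset_ball (by linarith)
  have h6 := Complex.norm_deriv_le_of_forall_mem_sphere_norm_le (by positivity) hd h4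
  have h7 : deriv (fun z => f z - f c) c = deriv f c := deriv_sub_const _
  rw [h7] at h6
  refine h6.trans (le_of_eq ?_)
  field_simp
  ring

lemma diff_bound {f : ℂ → ℂ} {R M : ℝ} (hR : 0 < R) (hM : 0 < M)
    (hf : ∀ x : ℝ, DifferentiableOn ℂ f (ball (x : ℂ) R))
    (hb : ∀ x : ℝ, ∀ z ∈ ball (x : ℂ) R, |(f z).re| ≤ M) (a b : ℝ) :
    ‖f b - f a‖ ≤ 8 * M / R * ‖b - a‖ := by
  have h1 : ∀ x ∈ (univ : Set ℝ), HasDerivWithinAt (fun x : ℝ => f x) (deriv f x) univ x := by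
    intro x _
    refine HasDerivAt.hasDerivWithinAt ?_
    have h2 : DifferentiableAt ℂ f x := (hf x).differentiableAt (ball_mem_nhds _ hR)
    exact h2.hasDerivAt.comp_ofReal
  exact convex_univ.norm_image_sub_le_of_norm_hasDerivWithin_le h1
    (fun x _ => deriv_bound hR hM (hf x) (hb x)) (mem_univ a) (mem_univ b)

lemma zero_of_decay {D : ℂ → ℂ} (hD : DifferentiableOn ℂ D (ball 0 1)) {A : ℝ}
    (hb : ∀ z ∈ ball (0 : ℂ) 1, ‖D z‖ ≤ A * √(1 - ‖z‖ ^ 2)) :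
    ∀ z ∈ ball (0 : ℂ) 1, D z = 0 := by
  intro z hz
  rw [mem_ball_zero_iff] at hz
  have h1 : ∀ r : ℝ, ‖z‖ < r → r < 1 → ‖D z‖ ≤ A * √(1 - r ^ 2) := by
    intro r h1 h2
    have hr : 0 < r := (norm_nonneg z).trans_lt h1
    have hd : DiffContOnCl ℂ D (ball 0 r) := by
      refine DifferentiableOn.diffContOnCl (hD.mono ?_)
      rw [closure_ball _ hr.ne']
      exact closedBall_subset_ball h2
    refine Complex.norm_le_of_forall_mem_frontier_norm_le isBounded_ball hd ?_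
      (subset_closure (mem_ball_zero_iff.2 h1))
    intro w hw
    rw [frontier_ball _ hr.ne', mem_sphere_zero_iff_norm] at hw
    have h3 := hb w (mem_ball_zero_iff.2 (by rw [hw]; exact h2))
    rwa [hw] at h3
  have h2 : Tendsto (fun r : ℝ => A * √(1 - r ^ 2)) (𝓝[<] 1) (𝓝 (A * √(1 - 1 ^ 2))) := by
    refine Tendsto.mono_left ?_ nhdsWithin_le_nhds
    exact (Continuous.tendsto (by fun_prop) 1)
  have h3 : ‖D z‖ ≤ A * √(1 - 1 ^ 2) := by
    refine ge_of_tendsto h2 ?_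
    have h4 : ∀ᶠ r : ℝ in 𝓝[<] 1, ‖z‖ < r ∧ r < 1 := by
      have h1 : ∀ᶠ r : ℝ in 𝓝 1, ‖z‖ < r := lt_mem_nhds hz
      filter_upwards [nhdsWithin_le_nhds h1, self_mem_nhdsWithin] with ρ h2 h3
      exact ⟨h2, h3⟩
    filter_upwards [h4] with r hr
    exact h1 r hr.1 hr.2
  have h5 : A * √(1 - 1 ^ 2) = 0 := by simp
  rw [h5] at h3
  exact norm_le_zero_iff.1 h3

/-! ## Coordinates -/

/-- the chart -/
def Ph (X v : ℂ) : Cn 2 := WithLp.toLp 2 ![(X + v ^ 2 - 1) / (X + v ^ 2 + 1), 2 * v / (X + v ^ 2 + 1)]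

lemma Ph0 (X v : ℂ) : Ph X v 0 = (X + v ^ 2 - 1) / (X + v ^ 2 + 1) := rfl

lemma Ph1 (X v : ℂ) : Ph X v 1 = 2 * v / (X + v ^ 2 + 1) := rfl

lemma u_re (X v : ℂ) : (X + v ^ 2).re = X.re + v.re ^ 2 - v.im ^ 2 := by
  rw [Complex.add_re, pow_two, Complex.mul_re]
  ring

lemma u_pos {X v : ℂ} (h : 2 * v.im ^ 2 < X.re) : 0 < (X + v ^ 2).re := by
  rw [u_re]
  nlinarith [sq_nonneg v.re, sq_nonneg v.im]

lemma u1_ne {u : ℂ} (h : 0 < u.re) : u + 1 ≠ 0 := by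
  intro h1
  have h2 := congrArg Complex.re h1
  simp at h2
  linarith

lemma Ph_mem {X v : ℂ} (h : 2 * v.im ^ 2 < X.re) : Ph X v ∈ ball (0 : Cn 2) 1 := by
  rw [mem_ball_zero_iff, EuclideanSpace.norm_eq, Real.sqrt_lt' one_pos, one_pow, Fin.sum_univ_two,
    Ph0, Ph1, norm_div, norm_div, div_pow, div_pow, ← add_div]
  have hu := u1_ne (u_pos h)
  have hpos : 0 < ‖X + v ^ 2 + 1‖ ^ 2 := by
    have := norm_pos_iff.2 hu
    positivity
  rw [div_lt_one hpos, ← Complex.normSq_eq_norm_sq, ← Complex.normSq_eq_norm_sq,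
    ← Complex.normSq_eq_norm_sq, map_mul]
  have hr := u_re X v
  have e1 : Complex.normSq (X + v ^ 2 - 1) = ((X + v ^ 2).re - 1) ^ 2 + (X + v ^ 2).im ^ 2 := by
    rw [Complex.normSq_apply]
    simp only [Complex.sub_re, Complex.sub_im, Complex.one_re, Complex.one_im]
    ring
  have e2 : Complex.normSq (X + v ^ 2 + 1) = ((X + v ^ 2).re + 1) ^ 2 + (X + v ^ 2).im ^ 2 := by
    rw [Complex.normSq_apply]
    simp only [Complex.add_re, Complex.add_im, Complex.one_re, Complex.one_im]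
    ring
  have e3 : Complex.normSq v = v.re ^ 2 + v.im ^ 2 := by
    rw [Complex.normSq_apply]
    ring
  have e4 : Complex.normSq (2 : ℂ) = 4 := by
    rw [Complex.normSq_apply]
    norm_num
  rw [e1, e2, e3, e4, hr]
  nlinarith

lemma norm_sq_Cn2 (z : Cn 2) : ‖z‖ ^ 2 = ‖z 0‖ ^ 2 + ‖z 1‖ ^ 2 := by
  rw [EuclideanSpace.norm_eq, Real.sq_sqrt (by positivity), Fin.sum_univ_two]

/-- the inverse chart -/
lemma chart {z : Cn 2} (hz : z ∈ ball (0 : Cn 2) 1) :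
    ∃ X v : ℂ, 2 * v.im ^ 2 < X.re ∧ Ph X v = z := by
  rw [mem_ball_zero_iff] at hz
  have h1 : ‖z 0‖ ^ 2 + ‖z 1‖ ^ 2 < 1 := by
    rw [← norm_sq_Cn2]
    nlinarith [norm_nonneg z]
  have h0 : ‖z 0‖ < 1 := by nlinarith [norm_nonneg (z 0), sq_nonneg ‖z 1‖]
  have hne := one_sub_ne h0
  have hpos : 0 < ‖1 - z 0‖ ^ 2 := by
    have := norm_pos_iff.2 hne
    positivity
  refine ⟨(1 + z 0) / (1 - z 0) - (z 1 / (1 - z 0)) ^ 2, z 1 / (1 - z 0), ?_, ?_⟩
  · set v : ℂ := z 1 / (1 - z 0) with hv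
    have h2 : v.re ^ 2 + v.im ^ 2 = ‖z 1‖ ^ 2 / ‖1 - z 0‖ ^ 2 := by
      have : v.re ^ 2 + v.im ^ 2 = Complex.normSq v := by
        rw [Complex.normSq_apply]
        ring
      rw [this, Complex.normSq_eq_norm_sq, hv, norm_div, div_pow]
    have h3 : ((1 + z 0) / (1 - z 0) - v ^ 2 : ℂ).re =
        (1 - ‖z 0‖ ^ 2) / ‖1 - z 0‖ ^ 2 - (v.re ^ 2 - v.im ^ 2) := by
      rw [Complex.sub_re, cay_re, pow_two v, Complex.mul_re]
      ring
    rw [h3]
    have h4 : ‖z 1‖ ^ 2 / ‖1 - z 0‖ ^ 2 < (1 - ‖z 0‖ ^ 2) / ‖1 - z 0‖ ^ 2 := by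
      gcongr
      linarith
    linarith
  · have e1 : (1 + z 0) / (1 - z 0) - (z 1 / (1 - z 0)) ^ 2 + (z 1 / (1 - z 0)) ^ 2 + 1 =
        2 / (1 - z 0) := by
      field_simp
      ring
    have e2 : (1 + z 0) / (1 - z 0) - (z 1 / (1 - z 0)) ^ 2 + (z 1 / (1 - z 0)) ^ 2 - 1 =
        2 * z 0 / (1 - z 0) := by
      field_simp
      ring
    ext i
    fin_cases i
    · change Ph _ _ 0 = z 0
      rw [Ph0, e1, e2]
      field_simp
    · change Ph _ _ 1 = z 1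
      rw [Ph1, e1]
      field_simp

lemma fX_Ph {X v : ℂ} (h : 2 * v.im ^ 2 < X.re) :
    fX (fun i => Ph X v i) = (X - 1) / (X + 1) := by
  have hu := u1_ne (u_pos h)
  have hX : X + 1 ≠ 0 := u1_ne (lt_of_le_of_lt (by positivity) h)
  unfold fX
  simp only [Ph0, Ph1]
  have e1 : 1 - (X + v ^ 2 - 1) / (X + v ^ 2 + 1) = 2 / (X + v ^ 2 + 1) := by
    field_simp
    ring
  rw [e1]
  have e2 : 2 * ((X + v ^ 2 - 1) / (X + v ^ 2 + 1)) * (2 / (X + v ^ 2 + 1)) -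
      (2 * v / (X + v ^ 2 + 1)) ^ 2 = 4 * (X - 1) / (X + v ^ 2 + 1) ^ 2 := by
    field_simp
    ring
  have e3 : 2 * (2 / (X + v ^ 2 + 1)) - (2 * v / (X + v ^ 2 + 1)) ^ 2 =
      4 * (X + 1) / (X + v ^ 2 + 1) ^ 2 := by
    field_simp
    ring
  rw [e2, e3]
  field_simp

/-- the Cayley transform of the disc variable -/
def cX (ζ : ℂ) : ℂ := (1 + ζ) / (1 - ζ)

lemma cX_re (ζ : ℂ) : (cX ζ).re = (1 - ‖ζ‖ ^ 2) / ‖1 - ζ‖ ^ 2 := cay_re ζ

lemma cX_inv {ζ : ℂ} (h : ‖ζ‖ < 1) : (cX ζ - 1) / (cX ζ + 1) = ζ := by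
  have h1 := one_sub_ne h
  unfold cX
  have e1 : (1 + ζ) / (1 - ζ) - 1 = 2 * ζ / (1 - ζ) := by
    field_simp
    ring
  have e2 : (1 + ζ) / (1 - ζ) + 1 = 2 / (1 - ζ) := by
    field_simp
    ring
  rw [e1, e2]
  field_simp

lemma cX_pos {ζ : ℂ} (h : ‖ζ‖ < 1) : 0 < (cX ζ).re := by
  rw [cX_re]
  have h1 := norm_pos_iff.2 (one_sub_ne h)
  have h2 : 0 < 1 - ‖ζ‖ ^ 2 := by nlinarith [norm_nonneg ζ]
  positivity

lemma cX_surj {X : ℂ} (h : 0 < X.re) : ‖(X - 1) / (X + 1)‖ < 1 ∧ cX ((X - 1) / (X + 1)) = X := by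
  have h1 := u1_ne h
  constructor
  · rw [norm_div, div_lt_one (norm_pos_iff.2 h1)]
    rw [← sq_lt_sq₀ (norm_nonneg _) (norm_nonneg _), ← Complex.normSq_eq_norm_sq,
      ← Complex.normSq_eq_norm_sq, Complex.normSq_apply, Complex.normSq_apply]
    simp only [Complex.add_re, Complex.add_im, Complex.sub_re, Complex.sub_im, Complex.one_re,
      Complex.one_im]
    nlinarith
  · unfold cX
    have e1 : 1 + (X - 1) / (X + 1) = 2 * X / (X + 1) := by
      field_simp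
      ring
    have e2 : 1 - (X - 1) / (X + 1) = 2 / (X + 1) := by
      field_simp
      ring
    rw [e1, e2]
    field_simp

/-- the real part of `g` in the chart -/
lemma gX_re {c ζ v : ℂ} (hc : ‖c‖ = 1) (hζ : ‖ζ‖ < 1) (h : 2 * v.im ^ 2 < (cX ζ).re) :
    (gX c (Ph (cX ζ) v)).re = (1 - ‖ζ‖ ^ 2) / ‖1 - c * ζ‖ ^ 2 := by
  unfold gX
  rw [fX_Ph h, cX_inv hζ, cay_re, norm_mul, hc, one_mul]

lemma fX_lt {z : Cn 2} (hz : z ∈ ball (0 : Cn 2) 1) : ‖fX (fun i => z i)‖ < 1 := by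
  obtain ⟨X, v, h, rfl⟩ := chart hz
  rw [fX_Ph h]
  exact (cX_surj (lt_of_le_of_lt (by positivity) h)).1

lemma den_ne {z : Cn 2} (hz : z ∈ ball (0 : Cn 2) 1) : 2 * (1 - z 0) - z 1 ^ 2 ≠ 0 := by
  obtain ⟨X, v, h, rfl⟩ := chart hz
  have hu := u1_ne (u_pos h)
  have hX : X + 1 ≠ 0 := u1_ne (lt_of_le_of_lt (by positivity) h)
  have e1 : 1 - Ph X v 0 = 2 / (X + v ^ 2 + 1) := by
    rw [Ph0]
    field_simp
    ring
  have e3 : 2 * (1 - Ph X v 0) - Ph X v 1 ^ 2 = 4 * (X + 1) / (X + v ^ 2 + 1) ^ 2 := by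
    rw [e1, Ph1]
    field_simp
    ring
  rw [e3]
  exact div_ne_zero (mul_ne_zero (by norm_num) hX) (pow_ne_zero _ hu)

lemma gX_mem {c : ℂ} (hc : ‖c‖ = 1) : gX c ∈ NB 2 := by
  have hlt : ∀ z ∈ ball (0 : Cn 2) 1, ‖c * fX (fun i => z i)‖ < 1 := by
    intro z hz
    rw [norm_mul, hc, one_mul]
    exact fX_lt hz
  refine ⟨?_, fun z hz => ?_, ?_⟩
  · have h0 : Differentiable ℂ fun z : Cn 2 => z 0 := by fun_prop
    have h1 : Differentiable ℂ fun z : Cn 2 => z 1 := by fun_prop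
    have hf : DifferentiableOn ℂ (fun z : Cn 2 => fX (fun i => z i)) (ball 0 1) := by
      unfold fX
      simp only [div_eq_mul_inv]
      refine DifferentiableOn.mul ?_ (DifferentiableOn.inv ?_ fun z hz => den_ne hz)
      · exact Differentiable.differentiableOn (by fun_prop)
      · exact Differentiable.differentiableOn (by fun_prop)
    unfold gX
    simp only [div_eq_mul_inv]
    refine DifferentiableOn.mul ?_ (DifferentiableOn.inv ?_ fun z hz => one_sub_ne (hlt z hz))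
    · exact (hf.const_mul c).const_add 1
    · exact (hf.const_mul c).const_sub 1
  · unfold gX
    rw [cay_re]
    have h1 := norm_pos_iff.2 (one_sub_ne (hlt z hz))
    have h2 : 0 < 1 - ‖c * fX (fun i => z i)‖ ^ 2 := by
      nlinarith [norm_nonneg (c * fX (fun i => z i)), hlt z hz]
    positivity
  · unfold gX fX
    simp

/-! ## Holomorphy in the chart -/

lemma Ph_diff_v {X : ℂ} {s : Set ℂ} (hs : ∀ v ∈ s, 2 * v.im ^ 2 < X.re) :
    DifferentiableOn ℂ (fun v => Ph X v) s := by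
  rw [differentiableOn_euclidean]
  intro i
  fin_cases i
  · change DifferentiableOn ℂ (fun v => (X + v ^ 2 - 1) / (X + v ^ 2 + 1)) s
    refine DifferentiableOn.div (by fun_prop) (by fun_prop) fun v hv => u1_ne (u_pos (hs v hv))
  · change DifferentiableOn ℂ (fun v => 2 * v / (X + v ^ 2 + 1)) s
    refine DifferentiableOn.div (by fun_prop) (by fun_prop) fun v hv => u1_ne (u_pos (hs v hv))

lemma cX_diff : DifferentiableOn ℂ cX (ball 0 1) := by
  unfold cX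
  refine DifferentiableOn.div (by fun_prop) (by fun_prop) fun v hv =>
    one_sub_ne (mem_ball_zero_iff.1 hv)

lemma Ph_diff_ζ (v : ℝ) : DifferentiableOn ℂ (fun ζ => Ph (cX ζ) v) (ball 0 1) := by
  have hX := cX_diff
  have hne : ∀ ζ ∈ ball (0 : ℂ) 1, cX ζ + (v : ℂ) ^ 2 + 1 ≠ 0 := by
    intro ζ hζ
    refine u1_ne (u_pos ?_)
    rw [Complex.ofReal_im]
    simpa using cX_pos (mem_ball_zero_iff.1 hζ)
  rw [differentiableOn_euclidean]
  intro i
  fin_cases i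
  · change DifferentiableOn ℂ (fun ζ => (cX ζ + (v : ℂ) ^ 2 - 1) / (cX ζ + (v : ℂ) ^ 2 + 1)) _
    exact DifferentiableOn.div (by fun_prop) (by fun_prop) hne
  · change DifferentiableOn ℂ (fun ζ => 2 * (v : ℂ) / (cX ζ + (v : ℂ) ^ 2 + 1)) _
    exact DifferentiableOn.div (by fun_prop) (by fun_prop) hne

/-! ## Main steps -/

/-- real points of the fibre: the values agree -/
lemma real_pts {k : Cn 2 → ℂ} (hk : DifferentiableOn ℂ k (ball 0 1)) {C : ℝ} (hC : 0 < C) {c : ℂ}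
    (hc : ‖c‖ = 1) (hb : ∀ z ∈ ball (0 : Cn 2) 1, |(k z).re| ≤ C * (gX c z).re)
    {ζ : ℂ} (hζ : ζ ∈ ball (0 : ℂ) 1) (x : ℝ) : k (Ph (cX ζ) x) = k (Ph (cX ζ) 0) := by
  have hreal : ∀ ζ ∈ ball (0 : ℂ) 1, ∀ x : ℝ, 2 * (x : ℂ).im ^ 2 < (cX ζ).re := by
    intro ζ hζ x
    rw [Complex.ofReal_im]
    simpa using cX_pos (mem_ball_zero_iff.1 hζ)
  have hcζ : ∀ ζ ∈ ball (0 : ℂ) 1, ‖c * ζ‖ < 1 := by
    intro ζ hζ
    rw [norm_mul, hc, one_mul]
    exact mem_ball_zero_iff.1 hζ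
  set D : ℂ → ℂ := fun ζ => (1 - c * ζ) ^ 2 * (k (Ph (cX ζ) x) - k (Ph (cX ζ) ((0 : ℝ) : ℂ))) with hD
  have hDd : DifferentiableOn ℂ D (ball 0 1) := by
    refine DifferentiableOn.mul (by fun_prop) (DifferentiableOn.sub ?_ ?_)
    · exact hk.comp (Ph_diff_ζ x) fun ζ hζ => Ph_mem (hreal ζ hζ x)
    · exact hk.comp (Ph_diff_ζ 0) fun ζ hζ => Ph_mem (hreal ζ hζ 0)
  have hDb : ∀ ζ ∈ ball (0 : ℂ) 1, ‖D ζ‖ ≤ (32 * C * |x|) * √(1 - ‖ζ‖ ^ 2) := by
    intro ζ hζ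
    have hζ1 := mem_ball_zero_iff.1 hζ
    have hn1 := norm_pos_iff.2 (one_sub_ne hζ1)
    have hn2 := norm_pos_iff.2 (one_sub_ne (hcζ ζ hζ))
    have hs : 0 < 1 - ‖ζ‖ ^ 2 := by nlinarith [norm_nonneg ζ]
    set s : ℝ := √(1 - ‖ζ‖ ^ 2) with hsdef
    have hspos : 0 < s := Real.sqrt_pos.2 hs
    have hss : s ^ 2 = 1 - ‖ζ‖ ^ 2 := Real.sq_sqrt hs.le
    have hR : 0 < s / (2 * ‖1 - ζ‖) := by positivity
    have hM : 0 < C * (s ^ 2 / ‖1 - c * ζ‖ ^ 2) := by positivity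
    have hin : ∀ y : ℝ, ∀ v ∈ ball (y : ℂ) (s / (2 * ‖1 - ζ‖)), 2 * v.im ^ 2 < (cX ζ).re := by
      intro y v hv
      rw [mem_ball, dist_eq_norm] at hv
      have h1 : |v.im| ≤ ‖v - y‖ := by
        have := Complex.abs_im_le_norm (v - y)
        simpa using this
      have h2 : v.im ^ 2 < (s / (2 * ‖1 - ζ‖)) ^ 2 := by
        rw [← sq_abs]
        have h3 : |v.im| < s / (2 * ‖1 - ζ‖) := h1.trans_lt hv
        have h4 := abs_nonneg v.im
        nlinarith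
      rw [cX_re, ← hss]
      have h5 : (s / (2 * ‖1 - ζ‖)) ^ 2 = (s ^ 2 / ‖1 - ζ‖ ^ 2) / 4 := by
        field_simp
        ring
      have h6 : 0 < s ^ 2 / ‖1 - ζ‖ ^ 2 := by positivity
      rw [h5] at h2
      linarith
    have h7 := diff_bound hR hM (f := fun v => k (Ph (cX ζ) v))
      (fun y => hk.comp (Ph_diff_v (hin y)) fun v hv => Ph_mem (hin y v hv))
      (fun y v hv => by
        have h8 := hb _ (Ph_mem (hin y v hv))
        rwa [gX_re hc hζ1 (hin y v hv), ← hss] at h8) 0 x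
    have h9 : ‖D ζ‖ = ‖1 - c * ζ‖ ^ 2 * ‖k (Ph (cX ζ) x) - k (Ph (cX ζ) ((0 : ℝ) : ℂ))‖ := by
      rw [hD]
      simp only [norm_mul, norm_pow]
    rw [h9]
    have h10 : ‖1 - c * ζ‖ ^ 2 * ‖k (Ph (cX ζ) x) - k (Ph (cX ζ) ((0 : ℝ) : ℂ))‖ ≤
        ‖1 - c * ζ‖ ^ 2 * (8 * (C * (s ^ 2 / ‖1 - c * ζ‖ ^ 2)) / (s / (2 * ‖1 - ζ‖)) * ‖x - 0‖) :=
      mul_le_mul_of_nonneg_left h7 (by positivity)
    refine h10.trans ?_
    have h11 : ‖1 - c * ζ‖ ^ 2 * (8 * (C * (s ^ 2 / ‖1 - c * ζ‖ ^ 2)) / (s / (2 * ‖1 - ζ‖)) *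
        ‖x - 0‖) = 16 * C * |x| * s * ‖1 - ζ‖ := by
      rw [sub_zero, Real.norm_eq_abs]
      field_simp
      ring
    rw [h11]
    have h12 : ‖1 - ζ‖ ≤ 2 := by
      have := norm_sub_le (1 : ℂ) ζ
      rw [norm_one] at this
      linarith
    have h13 : 16 * C * |x| * s * ‖1 - ζ‖ ≤ 16 * C * |x| * s * 2 :=
      mul_le_mul_of_nonneg_left h12 (by positivity)
    refine h13.trans (le_of_eq ?_)
    ring
  have h14 := zero_of_decay hDd hDb ζ hζ
  rw [hD] at h14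
  have h15 := (mul_eq_zero.1 h14).resolve_left (pow_ne_zero _ (one_sub_ne (hcζ ζ hζ)))
  have h16 := sub_eq_zero.1 h15
  rwa [Complex.ofReal_zero] at h16

/-- the values on a fibre agree -/
lemma fibre {k : Cn 2 → ℂ} (hk : DifferentiableOn ℂ k (ball 0 1)) {C : ℝ} (hC : 0 < C) {c : ℂ}
    (hc : ‖c‖ = 1) (hb : ∀ z ∈ ball (0 : Cn 2) 1, |(k z).re| ≤ C * (gX c z).re)
    {ζ : ℂ} (hζ : ζ ∈ ball (0 : ℂ) 1) {v : ℂ} (hv : 2 * v.im ^ 2 < (cX ζ).re) :
    k (Ph (cX ζ) v) = k (Ph (cX ζ) 0) := by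
  have hXp := cX_pos (mem_ball_zero_iff.1 hζ)
  set S : Set ℂ := Complex.im ⁻¹' (ball 0 √((cX ζ).re / 2)) with hS
  have hSm : ∀ w : ℂ, w ∈ S ↔ 2 * w.im ^ 2 < (cX ζ).re := by
    intro w
    rw [hS, mem_preimage, mem_ball_zero_iff, Real.norm_eq_abs, Real.lt_sqrt (abs_nonneg _), sq_abs]
    constructor <;> intro h <;> linarith
  have hSo : IsOpen S := isOpen_ball.preimage Complex.continuous_im
  have hSc : IsPreconnected S :=
    ((convex_ball (0 : ℝ) _).linear_preimage Complex.imLm).isPreconnected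
  have hd : DifferentiableOn ℂ (fun v => k (Ph (cX ζ) v)) S :=
    hk.comp (Ph_diff_v fun v hv => (hSm v).1 hv) fun v hv => Ph_mem ((hSm v).1 hv)
  have ha : AnalyticOnNhd ℂ (fun v => k (Ph (cX ζ) v)) S := hd.analyticOnNhd hSo
  have h0 : (0 : ℂ) ∈ S := (hSm 0).2 (by simpa using hXp)
  have hfr : ∃ᶠ w in 𝓝[≠] (0 : ℂ), k (Ph (cX ζ) w) = k (Ph (cX ζ) 0) := by
    have h1 : Tendsto (fun x : ℝ => (x : ℂ)) (𝓝[≠] 0) (𝓝[≠] (0 : ℂ)) := by
      refine tendsto_nhdsWithin_of_tendsto_nhds_of_eventually_within _ ?_ ?_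
      · have h2 : Tendsto (fun x : ℝ => (x : ℂ)) (𝓝 0) (𝓝 ((0 : ℝ) : ℂ)) :=
          Complex.continuous_ofReal.tendsto 0
        rw [Complex.ofReal_zero] at h2
        exact h2.mono_left nhdsWithin_le_nhds
      · filter_upwards [self_mem_nhdsWithin] with x hx
        rw [mem_compl_iff, mem_singleton_iff] at hx ⊢
        exact_mod_cast hx
    exact h1.frequently (Eventually.frequently (Eventually.of_forall fun x =>
      real_pts hk hC hc hb hζ x))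
  have h3 := ha.eqOn_of_preconnected_of_frequently_eq (g := fun _ => k (Ph (cX ζ) 0))
    analyticOnNhd_const hSc h0 hfr
  exact h3 ((hSm v).2 hv)

lemma Ph_zero {ζ : ℂ} (hζ : ‖ζ‖ < 1) : Ph (cX ζ) 0 = WithLp.toLp 2 ![ζ, 0] := by
  have h1 := cX_inv hζ
  ext i
  fin_cases i
  · change Ph _ _ 0 = ζ
    rw [Ph0]
    simpa using h1
  · change Ph _ _ 1 = 0
    rw [Ph1]
    simp

/-- the one-variable end step -/
lemma disc_zero {K : ℂ → ℂ} (hK : DifferentiableOn ℂ K (ball 0 1)) {C : ℝ} (h0 : K 0 = 0)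
    (hb : ∀ w ∈ ball (0 : ℂ) 1, |(K w).re| ≤ C * (1 - ‖w‖ ^ 2) / ‖1 - w‖ ^ 2) :
    ∀ w ∈ ball (0 : ℂ) 1, K w = 0 := by
  have hsub : Ann (1 / 2) ⊆ ball (0 : ℂ) 1 := by
    intro w hw
    exact mem_ball_zero_iff.2 hw.2
  obtain ⟨κ, hκ⟩ := end_step (r := 1 / 2) (by norm_num) (by norm_num) (hK.mono hsub)
    (fun w hw => hb w (hsub hw)) (fun j ρ h1 h2 => by
      have hρ : 0 < ρ := by linarith
      have hd : DiffContOnCl ℂ (fun w => K w * w ^ j) (ball 0 ρ) := by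
        refine DifferentiableOn.diffContOnCl ?_
        rw [closure_ball _ hρ.ne']
        exact (hK.mono (closedBall_subset_ball h2)).mul (by fun_prop)
      exact hd.circleIntegral_eq_zero hρ.le)
  have ha : AnalyticOnNhd ℂ K (ball 0 1) := hK.analyticOnNhd isOpen_ball
  have hd2 : DifferentiableOn ℂ (fun w : ℂ => κ + 2 * (κ.re : ℂ) * w / (1 - w)) (ball 0 1) := by
    have hd3 : DifferentiableOn ℂ (fun w : ℂ => 2 * (κ.re : ℂ) * w / (1 - w)) (ball 0 1) :=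
      DifferentiableOn.div (by fun_prop) (by fun_prop) fun w hw =>
        one_sub_ne (mem_ball_zero_iff.1 hw)
    exact hd3.const_add κ
  have hmem : (3 / 4 : ℂ) ∈ Ann (1 / 2) := by
    have : ‖(3 / 4 : ℂ)‖ = 3 / 4 := by
      rw [norm_div]
      norm_num
    constructor
    · rw [this]
      norm_num
    · rw [this]
      norm_num
  have hev : K =ᶠ[𝓝 (3 / 4 : ℂ)] fun w : ℂ => κ + 2 * (κ.re : ℂ) * w / (1 - w) := by
    filter_upwards [(isOpen_Ann (1 / 2)).mem_nhds hmem] with w hw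
    exact hκ w hw
  have h1 := ha.eqOn_of_preconnected_of_eventuallyEq (hd2.analyticOnNhd isOpen_ball)
    (convex_ball (0 : ℂ) 1).isPreconnected (hsub hmem) hev
  have h2 := h1 (mem_ball_self one_pos)
  rw [h0] at h2
  have hκ0 : κ = 0 := by simpa using h2.symm
  intro w hw
  rw [h1 hw, hκ0]
  simp

/-- row XEXT -/
theorem xext : XEXT := by
  intro c hc
  refine ⟨gX_mem hc, ?_⟩
  intro g₁ hg₁ g₂ hg₂ t ht0 ht1 heq
  have hc0 : c ≠ 0 := by
    intro h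
    rw [h, norm_zero] at hc
    exact zero_ne_one hc
  set k : Cn 2 → ℂ := fun z => g₁ z - g₂ z with hkdef
  set C : ℝ := 1 / t + 1 / (1 - t) with hCdef
  have ht1' : 0 < 1 - t := by linarith
  have hC : 0 < C := by positivity
  have hk : DifferentiableOn ℂ k (ball 0 1) := hg₁.1.sub hg₂.1
  have hb : ∀ z ∈ ball (0 : Cn 2) 1, |(k z).re| ≤ C * (gX c z).re := by
    intro z hz
    have h1 := hg₁.2.1 z hz
    have h2 := hg₂.2.1 z hz
    have h3 : (gX c z).re = t * (g₁ z).re + (1 - t) * (g₂ z).re := by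
      rw [heq z hz]
      simp
    have h4 : (g₁ z).re ≤ 1 / t * (gX c z).re := by
      rw [h3, div_mul_eq_mul_div, one_mul, le_div_iff₀ ht0]
      nlinarith [mul_pos ht1' h2]
    have h5 : (g₂ z).re ≤ 1 / (1 - t) * (gX c z).re := by
      rw [h3, div_mul_eq_mul_div, one_mul, le_div_iff₀ ht1']
      nlinarith [mul_pos ht0 h1]
    have h6 : (k z).re = (g₁ z).re - (g₂ z).re := by
      rw [hkdef]
      simp
    have h7 : C * (gX c z).re = 1 / t * (gX c z).re + 1 / (1 - t) * (gX c z).re := by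
      rw [hCdef]
      ring
    rw [h6, h7, abs_le]
    constructor <;> linarith
  -- the function of one variable
  have hdiv : ∀ w ∈ ball (0 : ℂ) 1, w / c ∈ ball (0 : ℂ) 1 := by
    intro w hw
    rw [mem_ball_zero_iff, norm_div, hc, div_one]
    exact mem_ball_zero_iff.1 hw
  have hmul : ∀ w ∈ ball (0 : ℂ) 1, c * w ∈ ball (0 : ℂ) 1 := by
    intro w hw
    rw [mem_ball_zero_iff, norm_mul, hc, one_mul]
    exact mem_ball_zero_iff.1 hw
  have hreal : ∀ ζ ∈ ball (0 : ℂ) 1, 2 * (0 : ℂ).im ^ 2 < (cX ζ).re := by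
    intro ζ hζ
    simpa using cX_pos (mem_ball_zero_iff.1 hζ)
  have hK : DifferentiableOn ℂ (fun w => k (Ph (cX (w / c)) 0)) (ball 0 1) := by
    have h1 : DifferentiableOn ℂ (fun ζ => k (Ph (cX ζ) ((0 : ℝ) : ℂ))) (ball 0 1) :=
      hk.comp (Ph_diff_ζ 0) fun ζ hζ => Ph_mem (by
        rw [Complex.ofReal_zero]
        exact hreal ζ hζ)
    have h2 := h1.comp (g := fun ζ => k (Ph (cX ζ) ((0 : ℝ) : ℂ))) (f := fun w : ℂ => w / c)
      (s := ball (0 : ℂ) 1) (by fun_prop) hdiv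
    rw [Complex.ofReal_zero] at h2
    exact h2
  have hK0 : k (Ph (cX (0 / c)) 0) = 0 := by
    rw [zero_div, Ph_zero (by simp)]
    have h1 : (WithLp.toLp 2 ![(0 : ℂ), 0] : Cn 2) = 0 := by
      ext i
      fin_cases i <;> rfl
    rw [h1, hkdef]
    change g₁ 0 - g₂ 0 = 0
    rw [hg₁.2.2, hg₂.2.2, sub_self]
  have hKb : ∀ w ∈ ball (0 : ℂ) 1,
      |(k (Ph (cX (w / c)) 0)).re| ≤ C * (1 - ‖w‖ ^ 2) / ‖1 - w‖ ^ 2 := by
    intro w hw
    have h1 := hb _ (Ph_mem (hreal _ (hdiv w hw)))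
    rw [gX_re hc (mem_ball_zero_iff.1 (hdiv w hw)) (hreal _ (hdiv w hw)), norm_div, hc, div_one,
      mul_div_cancel₀ w hc0] at h1
    rwa [mul_div_assoc]
  have hKz := disc_zero hK hK0 hKb
  intro z hz
  obtain ⟨X, v, h, rfl⟩ := chart hz
  have hXp : 0 < X.re := lt_of_le_of_lt (by positivity) h
  obtain ⟨h1, h2⟩ := cX_surj hXp
  set ζ : ℂ := (X - 1) / (X + 1) with hζ
  rw [← h2] at h ⊢
  have h3 := fibre hk hC hc hb (mem_ball_zero_iff.2 h1) h
  have h4 := hKz (c * ζ) (hmul ζ (mem_ball_zero_iff.2 h1))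
  rw [mul_div_cancel_left₀ ζ hc0] at h4
  rw [h4] at h3
  exact sub_eq_zero.1 h3

end

end Pool.Agent.Lib.MP_6ff8d9_an.N2.H50X
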