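import Pool.Agent.Lib.MP_6ff8d9_an_h11.Rows

/-!
# Row PMOD: Poisson modification in the plane
-/

open Metric Filter Topology InnerProductSpace Real

namespace Pool.Agent.Lib.MP_6ff8d9_an.H50

open Pool.Agent.Lib.MP_6ff8d9_an.H11

noncomputable section

theorem ev_closedBall {s : Set ℂ} (hs : IsOpen s) {c : ℂ} (hc : c ∈ s) :
    ∀ᶠ r : ℝ in 𝓝[>] 0, 0 < r ∧ closedBall c r ⊆ s := by
  obtain ⟨e, he, h⟩ := Metric.isOpen_iff.1 hs c hc
  have h1 : ∀ᶠ r : ℝ in 𝓝[>] 0, r ∈ Set.Ioo (0 : ℝ) e := Ioo_mem_nhdsGT he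
  filter_upwards [h1] with r hr
  exact ⟨hr.1, (closedBall_subset_ball hr.2).trans h⟩

theorem ci_of {U : ℂ → ℝ} {s : Set ℂ} (hU : ContinuousOn U s) {c : ℂ} {r : ℝ} (hr : 0 < r)
    (h : closedBall c r ⊆ s) : CircleIntegrable U c r :=
  (hU.mono (sphere_subset_closedBall.trans h)).circleIntegrable hr.le

theorem harm_avg {h : ℂ → ℝ} {s : Set ℂ} (hh : HarmonicOnNhd h s) {c : ℂ} {r : ℝ} (hr : 0 < r)
    (hs : closedBall c r ⊆ s) : circleAverage h c r = h c := by
  apply InnerProductSpace.HarmonicOnNhd.circleAverage_eq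
  rw [abs_of_pos hr]
  exact hh.mono hs

/-- super-mean minus harmonic is super-mean -/
theorem supM_sub {U h : ℂ → ℝ} {s : Set ℂ} (hs : IsOpen s) (hU : SupM U s)
    (hh : HarmonicOnNhd h s) : SupM (fun w => U w - h w) s := by
  refine ⟨hU.1.sub hh.continuousOn, fun c hc => ?_⟩
  filter_upwards [hU.2 c hc, ev_closedBall hs hc] with r h1 h2
  rw [circleAverage_fun_sub (ci_of hU.1 h2.1 h2.2) (ci_of hh.continuousOn h2.1 h2.2),
    harm_avg hh h2.1 h2.2]
  linarith

/-- harmonic minus sub-mean is super-mean -/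
theorem subM_sub {U h : ℂ → ℝ} {s : Set ℂ} (hs : IsOpen s) (hU : SubM U s)
    (hh : HarmonicOnNhd h s) : SupM (fun w => h w - U w) s := by
  refine ⟨hh.continuousOn.sub hU.1, fun c hc => ?_⟩
  filter_upwards [hU.2 c hc, ev_closedBall hs hc] with r h1 h2
  rw [circleAverage_fun_sub (ci_of hh.continuousOn h2.1 h2.2) (ci_of hU.1 h2.1 h2.2),
    harm_avg hh h2.1 h2.2]
  linarith

theorem pmod (hM : MINP) (hP : POIS) : PMOD := by
  intro a ρ ρ' U hρ hρρ' hU
  have hcb : closedBall a ρ ⊆ ball a ρ' := closedBall_subset_ball hρρ'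
  have hbb : ball a ρ ⊆ ball a ρ' := ball_subset_closedBall.trans hcb
  have hUs : ContinuousOn U (sphere a ρ) := hU.1.mono (sphere_subset_closedBall.trans hcb)
  obtain ⟨hH, hB⟩ := hP a ρ U hρ hUs
  have hUS : SupM U (ball a ρ) := ⟨hU.1.mono hbb, fun c hc => hU.2 c (hbb hc)⟩
  have hUb : ∀ ζ ∈ sphere a ρ, Tendsto U (𝓝[ball a ρ] ζ) (𝓝 (U ζ)) := by
    intro ζ hζ
    have h1 : ContinuousAt U ζ :=
      hU.1.continuousAt (isOpen_ball.mem_nhds (hcb (sphere_subset_closedBall hζ)))
    exact h1.tendsto.mono_left nhdsWithin_le_nhds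
  have hfr : frontier (ball a ρ) = sphere a ρ := frontier_ball a hρ.ne'
  -- Md ≤ U inside
  have h2in : ∀ c ∈ ball a ρ, PI U a ρ c ≤ U c := by
    intro c hc
    have h := hM (ball a ρ) (fun w => U w - PI U a ρ w) isOpen_ball isBounded_ball
      (supM_sub isOpen_ball hUS hH) ?_ c hc
    · linarith
    · intro ζ hζ ε hε
      rw [hfr] at hζ
      have h1 : Tendsto (fun w => U w - PI U a ρ w) (𝓝[ball a ρ] ζ) (𝓝 (U ζ - U ζ)) :=
        (hUb ζ hζ).sub (hB ζ hζ)
      rw [sub_self] at h1
      exact (h1.eventually (lt_mem_nhds (neg_lt_zero.2 hε))).mono fun w hw => hw.le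
  have hMdU : ∀ c ∈ ball a ρ', Md U a ρ c ≤ U c := by
    intro c _
    unfold Md
    split_ifs with h
    · exact h2in c h
    · exact le_rfl
  have h3 : ∀ U0 : ℂ → ℝ, SubM U0 (ball a ρ') → (∀ c ∈ ball a ρ', U0 c ≤ U c) →
      ∀ c ∈ ball a ρ', U0 c ≤ Md U a ρ c := by
    intro U0 hU0 hle c hc
    unfold Md
    split_ifs with h
    · have hk := hM (ball a ρ) (fun w => PI U a ρ w - U0 w) isOpen_ball isBounded_ball
        (subM_sub isOpen_ball ⟨hU0.1.mono hbb, fun c hc => hU0.2 c (hbb hc)⟩ hH) ?_ c h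
      · linarith
      · intro ζ hζ ε hε
        rw [hfr] at hζ
        have h0 : ContinuousAt U0 ζ :=
          hU0.1.continuousAt (isOpen_ball.mem_nhds (hcb (sphere_subset_closedBall hζ)))
        have h1 : Tendsto (fun w => PI U a ρ w - U0 w) (𝓝[ball a ρ] ζ) (𝓝 (U ζ - U0 ζ)) :=
          (hB ζ hζ).sub (h0.tendsto.mono_left nhdsWithin_le_nhds)
        have h4 : -ε < U ζ - U0 ζ := by
          have := hle ζ (hcb (sphere_subset_closedBall hζ))
          linarith
        exact (h1.eventually (lt_mem_nhds h4)).mono fun w hw => hw.le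
    · exact hle c hc
  have hMdeq : ∀ c ∈ ball a ρ, Md U a ρ =ᶠ[𝓝 c] PI U a ρ := by
    intro c hc
    filter_upwards [isOpen_ball.mem_nhds hc] with w hw
    simp [Md, hw]
  have h4 : HarmonicOnNhd (Md U a ρ) (ball a ρ) := by
    intro c hc
    exact (harmonicAt_congr_nhds (hMdeq c hc)).2 (hH c hc)
  have hcont : ContinuousOn (Md U a ρ) (ball a ρ') := by
    intro c hc
    have hUc : ContinuousAt U c := hU.1.continuousAt (isOpen_ball.mem_nhds hc)
    by_cases h : c ∈ ball a ρ
    · have h5 : ContinuousAt (PI U a ρ) c := hH.continuousOn.continuousAt (isOpen_ball.mem_nhds h)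
      exact (h5.congr (hMdeq c h).symm).continuousWithinAt
    · have hMc : Md U a ρ c = U c := by simp [Md, h]
      have hout : Tendsto (Md U a ρ) (𝓝[(ball a ρ)ᶜ] c) (𝓝 (U c)) := by
        apply (hUc.tendsto.mono_left nhdsWithin_le_nhds).congr'
        filter_upwards [self_mem_nhdsWithin] with w hw
        have hw' : w ∉ ball a ρ := hw
        simp [Md, hw']
      have hin : Tendsto (Md U a ρ) (𝓝[ball a ρ] c) (𝓝 (U c)) := by
        by_cases hs : c ∈ sphere a ρ
        · apply (hB c hs).congr'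
          filter_upwards [self_mem_nhdsWithin] with w hw
          simp [Md, hw]
        · have hc' : c ∉ closedBall a ρ := by
            intro hcc
            rcases (mem_closedBall.1 hcc).lt_or_eq with h6 | h6
            · exact h h6
            · exact hs h6
          have : 𝓝[ball a ρ] c = ⊥ := by
            rw [← mem_closure_iff_nhdsWithin_neBot.not.trans not_neBot |>.1]
            · exact fun h7 => hc' (closure_ball_subset_closedBall h7)
          rw [this]
          exact tendsto_bot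
      have hall : Tendsto (Md U a ρ) (𝓝 c) (𝓝 (U c)) := by
        have := hin.sup hout
        rwa [← nhdsWithin_union, Set.union_compl_self, nhdsWithin_univ] at this
      have : ContinuousAt (Md U a ρ) c := by
        unfold ContinuousAt
        rw [hMc]
        exact hall
      exact this.continuousWithinAt
  refine ⟨⟨hcont, fun c hc => ?_⟩, hMdU, h3, h4⟩
  by_cases h : c ∈ ball a ρ
  · filter_upwards [ev_closedBall isOpen_ball h] with r hr
    exact (harm_avg h4 hr.1 hr.2).le
  · filter_upwards [hU.2 c hc, ev_closedBall isOpen_ball hc] with r h1 h2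
    have hMc : Md U a ρ c = U c := by simp [Md, h]
    rw [hMc]
    refine le_trans (circleAverage_mono (ci_of hcont h2.1 h2.2) (ci_of hU.1 h2.1 h2.2) ?_) h1
    intro x hx
    rw [abs_of_pos h2.1] at hx
    exact hMdU x (h2.2 (sphere_subset_closedBall hx))

end

end Pool.Agent.Lib.MP_6ff8d9_an.H50
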