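import Pool.Agent.Lib.MP_6ff8d9_an_h50.Irrsurj

/-!
# MP_6ff8d9 UNIFORMISATION rows, U3: a maximal function is prime
-/

open Metric Filter Topology
open scoped ComplexConjugate

namespace Pool.Agent.Lib.MP_6ff8d9_an.P69

open Pool.Agent.Lib.MP_6ff8d9_an Pool.Agent.Lib.MP_6ff8d9_an.H11

noncomputable section

variable {n : ℕ}

namespace H50I

/-- a function of a dependent function is dependent -/
lemma dep_comp {F k w : Cn n → ℂ} {N : ℂ → ℂ} (hd : Dep F w)
    (hw : DifferentiableOn ℂ w (ball 0 1)) (hk : ∀ z ∈ ball (0 : Cn n) 1, k z = N (w z))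
    (hN : ∀ z ∈ ball (0 : Cn n) 1, DifferentiableAt ℂ N (w z)) : Dep F k := by
  intro z hz v v'
  have hwz := hw.differentiableAt (isOpen_ball.mem_nhds hz)
  have h2 : k =ᶠ[𝓝 z] fun y => N (w y) := by
    filter_upwards [isOpen_ball.mem_nhds hz] with y hy using hk y hy
  rw [fderiv_fun_of h2 (hN z hz) hwz, fderiv_fun_of h2 (hN z hz) hwz]
  have h3 := hd z hz v v'
  linear_combination deriv N (w z) * h3

/-- maximum principle -/
lemma max_const {w : Cn n → ℂ} (hw : DifferentiableOn ℂ w (ball 0 1))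
    (h1 : ∀ z ∈ ball (0 : Cn n) 1, ‖w z‖ ≤ 1) {p : Cn n} (hp : p ∈ ball (0 : Cn n) 1)
    (h : 1 ≤ ‖w p‖) : ∀ z ∈ ball (0 : Cn n) 1, w z = w p := by
  intro z hz
  have hmax : IsMaxOn (norm ∘ w) (ball (0 : Cn n) 1) p := by
    intro y hy
    simp only [Function.comp, Set.mem_ofPred_eq]
    exact (h1 y hy).trans h
  exact Complex.eqOn_of_isPreconnected_of_isMaxOn_norm
    (convex_ball (0 : Cn n) 1).isPreconnected isOpen_ball hw hp hmax hz

lemma norm_mob_zero {a : ℂ} (ha : ‖a‖ < 1) : ‖mob a 0‖ = ‖a‖ := by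
  unfold mob
  have h1 : ‖1 - conj a‖ = ‖1 - a‖ := by
    rw [← Complex.norm_conj (1 - a), map_sub, map_one]
  have h2 : (1 - a) ≠ 0 := by
    intro h2
    rw [← sub_eq_zero.1 h2, norm_one] at ha
    exact lt_irrefl _ ha
  rw [norm_mul, norm_div, h1, div_self (norm_ne_zero_iff.2 h2), mul_zero, sub_zero, div_one,
    zero_sub, norm_neg, one_mul]

lemma mob_self (a : ℂ) : mob a a = 0 := by
  unfold mob
  rw [sub_self, zero_div, mul_zero]

end H50I

open H50I in
/-- row U3 -/
theorem wprime (hF2 : FACT2) (hKR : KREL) (hKO : KOF) : WPRIME := by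
  intro n W e z1 hW hz1 hW1 hmax k hk hdep
  refine hKO n W k e hW hk (wonto n W e z1 hW hz1 hW1 hmax) ⟨z1, hz1⟩ ?_
  have hrel := hKR n W k e hW.an hk hdep
  intro p hp q hq hpq
  have hclaim : Ek W k p q := by
    by_contra hE
    obtain ⟨w, H, hw, hH, hwH, hdw, -, hwp, -, hz2⟩ := hF2 n W (fun _ => 0) e (Ek W k) hW hrel
      (differentiableOn_const 0) (fun z _ v v' => by simp) (fun z _ => by simp)
      (fun z _ z' _ _ => rfl) p hp rfl
    have hwq : w q ≠ 0 := hz2 q hq hpq.symm hE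
    have hw1 : ∀ z ∈ ball (0 : Cn n) 1, ‖w z‖ < 1 := by
      intro z hz
      by_contra h
      have h1 := max_const hw (fun y hy => (hwH y hy).1) hz (not_lt.1 h)
      rw [h1 q hq.1, ← h1 p hp.1, hwp] at hwq
      exact hwq rfl
    obtain ⟨b, hb⟩ : ∃ b : ℂ, b = w z1 := ⟨_, rfl⟩
    have hb1 : ‖b‖ < 1 := by
      rw [hb]
      exact hw1 z1 hz1.1
    have hψ : Fam n W z1 (fun z => (w z - b) / (1 - conj b * w z)) := by
      refine ⟨?_, ?_, fun z hz => (pseudo' (hw1 z hz) hb1).le, ?_⟩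
      · have h2 : DifferentiableOn ℂ (fun z => 1 - conj b * w z) (ball 0 1) :=
          (hw.const_mul (conj b)).const_sub 1
        simp only [div_eq_mul_inv]
        exact (hw.sub_const b).fun_mul (h2.fun_inv fun z hz => surj_den hb1 (hw1 z hz))
      · refine dep_comp (N := fun s => (s - b) / (1 - conj b * s)) hdw hw (fun z _ => rfl)
          fun z hz => ?_
        exact DifferentiableAt.div (by fun_prop) (by fun_prop) (surj_den hb1 (hw1 z hz))
      · rw [← hb, sub_self, zero_div]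
    have hba : ‖b‖ ≤ ‖W p‖ := by
      have h1 := hmax _ hψ p hp.1
      simp only [hwp, mul_zero, sub_zero, zero_sub, div_one, norm_neg] at h1
      exact h1
    rcases eq_or_ne (W p) 0 with ha | ha
    · have hb0 : b = 0 := by
        rw [ha, norm_zero] at hba
        exact norm_le_zero_iff.1 hba
      have h1 := hmax _ hψ q hq.1
      rw [← hpq, ha, hb0] at h1
      simp only [sub_zero, map_zero, zero_mul, div_one, norm_zero] at h1
      exact hwq (norm_le_zero_iff.1 h1)
    · have h1 := (hwH z1 hz1.1).2.2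
      rw [hW1, ← hb] at h1
      have h2 : ‖W p‖ = ‖b‖ * ‖H z1‖ := by
        rw [← norm_mob_zero (hW.lt p hp.1), h1, norm_mul]
      have hpos : 0 < ‖W p‖ := norm_pos_iff.2 ha
      have h3 : 1 ≤ ‖H z1‖ := by
        by_contra h
        have h4 : ‖b‖ * ‖H z1‖ ≤ ‖W p‖ * ‖H z1‖ :=
          mul_le_mul_of_nonneg_right hba (norm_nonneg _)
        have h5 : ‖W p‖ * ‖H z1‖ < ‖W p‖ := mul_lt_of_lt_one_right hpos (not_le.1 h)
        linarith
      have h4 := max_const hH (fun y hy => (hwH y hy).2.1) hz1.1 h3 q hq.1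
      have h5 := (hwH q hq.1).2.2
      rw [← hpq, mob_self, h4] at h5
      rcases mul_eq_zero.1 h5.symm with h | h
      · exact hwq h
      · rw [h, norm_zero] at h3
        exact absurd h3 (by norm_num)
  exact hclaim.2.self_of_nhds hpq

end

end Pool.Agent.Lib.MP_6ff8d9_an.P69
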