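import Pool.Agent.Lib.MP_6ff8d9_an_h50.Strip

/-!
# MP_6ff8d9: the family `k v u^{-(1+iθ)/2}` is extreme
-/

open Metric Set Filter Topology
open scoped ComplexConjugate

namespace Pool.Agent.Lib.MP_6ff8d9_an.N2.H50X

open Pool.Agent.Lib.MP_6ff8d9_an Pool.Agent.Lib.MP_6ff8d9_an.Rat.H82

noncomputable section

/-- the profile -/
def ρ3 (θ k : ℝ) (x : ℝ) : ℝ := k ^ 2 * (Real.exp (θ * x) * Real.cos x)

/-- normalisation of the constant -/
def Norm3 (θ k : ℝ) : Prop := 0 < k ∧ ρ3 θ k (Real.arctan θ) = 1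

/-- `k v u^{-(1+iθ)/2}` -/
def F3 (θ k : ℝ) (z : Cn 2) : ℂ :=
  (k : ℂ) * cv Complex.I z *
    Complex.exp (-((1 + θ * Complex.I) / 2 * Complex.log (cu Complex.I z)))

def Φ3 (θ k : ℝ) (w s : ℂ) : Cn 2 := Pu Complex.I (Complex.exp (Complex.I * s))
  (w * Complex.exp ((1 + θ * Complex.I) / 2 * (Complex.I * s)) / k)

lemma ρ3_deriv (θ k x : ℝ) : HasDerivAt (ρ3 θ k)
    (k ^ 2 * Real.exp (θ * x) * (θ * Real.cos x - Real.sin x)) x := by
  have h1 : HasDerivAt (fun x : ℝ => θ * x) θ x := by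
    simpa using (hasDerivAt_id x).const_mul θ
  have h3 := (h1.exp.mul (Real.hasDerivAt_cos x)).const_mul (k ^ 2)
  refine h3.congr_deriv ?_
  ring

lemma ρ3_cont (θ k : ℝ) : Continuous (ρ3 θ k) := by
  unfold ρ3
  fun_prop

lemma ρ3_sign {θ x : ℝ} (hx : x ∈ Ioo (-(Real.pi / 2)) (Real.pi / 2)) :
    (x ≤ Real.arctan θ → 0 ≤ θ * Real.cos x - Real.sin x) ∧
    (Real.arctan θ ≤ x → θ * Real.cos x - Real.sin x ≤ 0) := by
  have hc := Real.cos_pos_of_mem_Ioo hx
  have h1 : Real.tan (Real.arctan θ) = θ := Real.tan_arctan θ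
  have h2 : Real.sin x = Real.tan x * Real.cos x := (Real.tan_mul_cos hc.ne').symm
  have h3 := Real.arctan_mem_Ioo θ
  constructor
  · intro h
    have h4 : Real.tan x ≤ θ := by
      rw [← h1]
      exact Real.strictMonoOn_tan.monotoneOn hx h3 h
    rw [h2]
    have := mul_le_mul_of_nonneg_right h4 hc.le
    linarith
  · intro h
    have h4 : θ ≤ Real.tan x := by
      rw [← h1]
      exact Real.strictMonoOn_tan.monotoneOn h3 hx h
    rw [h2]
    have := mul_le_mul_of_nonneg_right h4 hc.le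
    linarith

lemma ρ3_mono (θ k : ℝ) :
    MonotoneOn (ρ3 θ k) (Ioo (-(Real.pi / 2)) (Real.pi / 2) ∩ Iic (Real.arctan θ)) := by
  refine monotoneOn_of_deriv_nonneg ?_ (ρ3_cont θ k).continuousOn
    (fun x _ => (ρ3_deriv θ k x).differentiableAt.differentiableWithinAt) ?_
  · exact (convex_Ioo _ _).inter (convex_Iic _)
  · intro x hx
    have hx' := interior_subset hx
    rw [(ρ3_deriv θ k x).deriv]
    have h1 := (ρ3_sign (θ := θ) hx'.1).1 hx'.2
    positivity

lemma ρ3_anti (θ k : ℝ) :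
    AntitoneOn (ρ3 θ k) (Ioo (-(Real.pi / 2)) (Real.pi / 2) ∩ Ici (Real.arctan θ)) := by
  refine antitoneOn_of_deriv_nonpos ?_ (ρ3_cont θ k).continuousOn
    (fun x _ => (ρ3_deriv θ k x).differentiableAt.differentiableWithinAt) ?_
  · exact (convex_Ioo _ _).inter (convex_Ici _)
  · intro x hx
    have hx' := interior_subset hx
    rw [(ρ3_deriv θ k x).deriv]
    have h1 := (ρ3_sign (θ := θ) hx'.1).2 hx'.2
    have h2 : 0 ≤ k ^ 2 * Real.exp (θ * x) := by positivity
    exact mul_nonpos_of_nonneg_of_nonpos h2 h1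

lemma ρ3_le {θ k x : ℝ} (hk : Norm3 θ k) (hx : x ∈ Ioo (-(Real.pi / 2)) (Real.pi / 2)) :
    ρ3 θ k x ≤ 1 := by
  have h3 := Real.arctan_mem_Ioo θ
  rw [← hk.2]
  rcases le_total x (Real.arctan θ) with h | h
  · exact ρ3_mono θ k ⟨hx, h⟩ ⟨h3, le_refl (Real.arctan θ)⟩ h
  · exact ρ3_anti θ k ⟨h3, le_refl (Real.arctan θ)⟩ ⟨hx, h⟩ h

lemma sin_near {h : ℝ} (hh : |h| ≤ 1) : |Real.sin h - h| ≤ h ^ 2 / 4 := by
  have key : ∀ x : ℝ, 0 ≤ x → x ≤ 1 → |Real.sin x - x| ≤ x ^ 2 / 4 := by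
    intro x h0 h1
    rcases h0.eq_or_lt with h | h
    · rw [← h]
      simp
    · have h2 := Real.sin_gt_sub_cube h
      have h3 := Real.sin_lt h
      rw [abs_le]
      constructor
      · nlinarith [mul_nonneg (mul_nonneg h0 h0) (sub_nonneg.2 h1)]
      · nlinarith [sq_nonneg x]
  rcases le_total 0 h with h0 | h0
  · exact key h h0 (by rwa [abs_of_nonneg h0] at hh)
  · have h1 := key (-h) (by linarith) (by rwa [abs_of_nonpos h0] at hh)
    rw [Real.sin_neg, neg_sq] at h1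
    have e1 : -Real.sin h - -h = -(Real.sin h - h) := by ring
    rwa [e1, abs_neg] at h1

lemma ρ3_lower {θ k h : ℝ} (hk : Norm3 θ k) (hh : |h| < 1 / (2 * (1 + |θ|))) :
    1 - (1 + |θ|) ^ 2 * h ^ 2 ≤ ρ3 θ k (Real.arctan θ + h) := by
  obtain ⟨T, hT⟩ : ∃ T : ℝ, T = |θ| := ⟨_, rfl⟩
  have hT0 : 0 ≤ T := by
    rw [hT]
    exact abs_nonneg θ
  rw [← hT] at hh ⊢
  have h1T : 0 < 1 + T := by linarith
  rw [lt_div_iff₀ (by positivity)] at hh
  have hh1 : |h| * (1 + T) < 1 / 2 := by linarith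
  have hh2 : |h| ≤ 1 / 2 := by nlinarith [abs_nonneg h, mul_nonneg (abs_nonneg h) hT0]
  have hθh : |θ * h| ≤ 1 / 2 := by
    rw [abs_mul, ← hT]
    nlinarith [abs_nonneg h]
  have hθh' := abs_le.1 hθh
  -- value
  have hc : Real.cos (Real.arctan θ) ≠ 0 :=
    (Real.cos_pos_of_mem_Ioo (Real.arctan_mem_Ioo θ)).ne'
  have hs : Real.sin (Real.arctan θ) = θ * Real.cos (Real.arctan θ) := by
    have h2 := Real.tan_mul_cos hc
    rw [Real.tan_arctan] at h2
    exact h2.symm
  have hval : ρ3 θ k (Real.arctan θ + h) =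
      Real.exp (θ * h) * (Real.cos h - θ * Real.sin h) := by
    have h3 := hk.2
    unfold ρ3 at h3 ⊢
    rw [mul_add, Real.exp_add, Real.cos_add, hs]
    linear_combination (Real.exp (θ * h) * (Real.cos h - θ * Real.sin h)) * h3
  rw [hval]
  have hcos := Real.one_sub_sq_div_two_le_cos (x := h)
  have hsin := sin_near (h := h) (by linarith)
  have hsin2 : θ * Real.sin h ≤ θ * h + T * (h ^ 2 / 4) := by
    have h3 : θ * Real.sin h - θ * h ≤ |θ * (Real.sin h - h)| := by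
      rw [← mul_sub]
      exact le_abs_self _
    rw [abs_mul, ← hT] at h3
    have h4 := mul_le_mul_of_nonneg_left hsin hT0
    linarith
  have hB : 1 - θ * h - (1 / 2 + T / 4) * h ^ 2 ≤ Real.cos h - θ * Real.sin h := by
    linarith
  have hexp : 1 + θ * h ≤ Real.exp (θ * h) := by
    have := Real.add_one_le_exp (θ * h)
    linarith
  have hh3 : h ^ 2 * (1 + T) ≤ 1 / 4 := by
    have h4 : h ^ 2 = |h| * |h| := by rw [← sq_abs, pow_two]
    rw [h4]
    nlinarith [abs_nonneg h]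
  have hh4 : 0 ≤ h ^ 2 := sq_nonneg h
  have hb0 : 0 ≤ 1 - θ * h - (1 / 2 + T / 4) * h ^ 2 := by
    nlinarith [mul_nonneg hh4 hT0]
  have hpos : 0 ≤ 1 + θ * h := by linarith
  have h5 : (1 + θ * h) * (1 - θ * h - (1 / 2 + T / 4) * h ^ 2) ≤
      Real.exp (θ * h) * (Real.cos h - θ * Real.sin h) :=
    mul_le_mul hexp hB hb0 (Real.exp_pos _).le
  refine le_trans ?_ h5
  have h6 : (θ * h) ^ 2 = T ^ 2 * h ^ 2 := by
    rw [mul_pow, hT, sq_abs]
  have h7 : (1 + θ * h) * (1 - θ * h - (1 / 2 + T / 4) * h ^ 2) =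
      1 - T ^ 2 * h ^ 2 - (1 + θ * h) * ((1 / 2 + T / 4) * h ^ 2) := by
    rw [← h6]
    ring
  rw [h7]
  have h8 : (1 + θ * h) * ((1 / 2 + T / 4) * h ^ 2) ≤ 3 / 2 * ((1 / 2 + T / 4) * h ^ 2) := by
    refine mul_le_mul_of_nonneg_right (by linarith) (by positivity)
  nlinarith [mul_nonneg hh4 hT0]

lemma v3_norm {θ k : ℝ} (hk : 0 < k) (w s : ℂ) :
    ‖w * Complex.exp ((1 + θ * Complex.I) / 2 * (Complex.I * s)) / k‖ ^ 2 =
    ‖w‖ ^ 2 * Real.exp (-s.im - θ * s.re) / k ^ 2 := by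
  rw [norm_div, norm_mul, Complex.norm_exp, Complex.norm_real, Real.norm_of_nonneg hk.le,
    div_pow, mul_pow, ← Real.exp_nat_mul]
  congr 3
  simp
  ring

lemma exp_Is_re (s : ℂ) : (Complex.exp (Complex.I * s)).re = Real.exp (-s.im) * Real.cos s.re := by
  rw [Complex.exp_re]
  simp

lemma v3_lt {θ k : ℝ} (hk : 0 < k) {w s : ℂ}
    (h : s ∈ SecS (Ioo (-(Real.pi / 2)) (Real.pi / 2)) (ρ3 θ k) w) :
    ‖w * Complex.exp ((1 + θ * Complex.I) / 2 * (Complex.I * s)) / k‖ ^ 2 <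
      (Complex.exp (Complex.I * s)).re := by
  rw [v3_norm hk, exp_Is_re]
  have h1 : ‖w‖ ^ 2 < k ^ 2 * (Real.exp (θ * s.re) * Real.cos s.re) := h.2
  rw [div_lt_iff₀ (by positivity)]
  have h2 := mul_lt_mul_of_pos_right h1 (Real.exp_pos (-s.im - θ * s.re))
  refine h2.trans_le (le_of_eq ?_)
  have e1 : Real.exp (-s.im) = Real.exp (θ * s.re) * Real.exp (-s.im - θ * s.re) := by
    rw [← Real.exp_add]
    congr 1
    ring
  rw [e1]
  ring

theorem fibred3 {θ k : ℝ} (hk : Norm3 θ k) :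
    ∃ κ : ℝ, Fibred 2 (F3 θ k) (Φ3 θ k)
      (SecS (Ioo (-(Real.pi / 2)) (Real.pi / 2)) (ρ3 θ k)) (Real.arctan θ) κ := by
  have hk0 : (k : ℂ) ≠ 0 := by exact_mod_cast hk.1.ne'
  have hI : ‖Complex.I‖ = 1 := Complex.norm_I
  have hat := Real.arctan_mem_Ioo θ
  have hTp : 0 < 1 + |θ| := by positivity
  set h0 : ℝ := min (1 / (2 * (1 + |θ|))) (min (Real.pi / 2 - Real.arctan θ)
    (Real.arctan θ + Real.pi / 2)) with hh0
  have hh0p : 0 < h0 := by
    refine lt_min (by positivity) (lt_min ?_ ?_)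
    · linarith [hat.2]
    · linarith [hat.1]
  have hh1 : h0 ≤ 1 / (2 * (1 + |θ|)) := min_le_left _ _
  have hh2 : h0 ≤ Real.pi / 2 - Real.arctan θ := (min_le_right _ _).trans (min_le_left _ _)
  have hh3 : h0 ≤ Real.arctan θ + Real.pi / 2 := (min_le_right _ _).trans (min_le_right _ _)
  refine ⟨h0, hh0p, ?_, ?_, ?_, ?_, fun w _ => SecS_open isOpen_Ioo (ρ3_cont θ k) w,
    fun w _ => SecS_conn ordConnected_Ioo (ρ3_mono θ k) (ρ3_anti θ k) w, ?_, ?_, ?_⟩
  · have h1 := cu_diff hI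
    have h2 := cv_diff hI
    have h3 : DifferentiableOn ℂ (fun z => Complex.log (cu Complex.I z)) (ball (0 : Cn 2) 1) :=
      h1.clog fun z hz => Or.inl (re_pos_of (chart_lt hI hz))
    exact (h2.const_mul (k : ℂ)).mul (h3.const_mul ((1 + θ * Complex.I) / 2)).neg.cexp
  · unfold F3 cv
    simp
  · intro w _ s hs
    have h1 := v3_lt hk.1 hs
    have h2 : 0 < (Complex.exp (Complex.I * s)).re := re_pos_of h1
    refine ⟨Pu_mem hI h1, ?_⟩
    unfold F3 Φ3
    rw [cv_Pu hI h2, cu_Pu hI h2]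
    have h3 : Complex.log (Complex.exp (Complex.I * s)) = Complex.I * s := by
      refine Complex.log_exp ?_ ?_
      · have h4 := hs.1.1
        have e1 : (Complex.I * s).im = s.re := by simp
        rw [e1]
        linarith [Real.pi_pos]
      · have h4 := hs.1.2
        have e1 : (Complex.I * s).im = s.re := by simp
        rw [e1]
        linarith [Real.pi_pos]
    rw [h3, Complex.exp_neg]
    have := Complex.exp_ne_zero ((1 + θ * Complex.I) / 2 * (Complex.I * s))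
    field_simp
  · intro z hz
    have h1 := chart_lt hI hz
    have h2 := chart_inv hI hz
    have h3 : 0 < (cu Complex.I z).re := re_pos_of h1
    have hu0 : cu Complex.I z ≠ 0 := by
      intro h
      rw [h] at h3
      simp at h3
    obtain ⟨l, hl⟩ : ∃ l : ℂ, l = Complex.log (cu Complex.I z) := ⟨_, rfl⟩
    have hexp : Complex.exp l = cu Complex.I z := by
      rw [hl]
      exact Complex.exp_log hu0
    have hlim : |l.im| < Real.pi / 2 := by
      rw [hl, Complex.log_im]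
      exact Complex.abs_arg_lt_pi_div_two_iff.2 (Or.inl h3)
    have hure : (cu Complex.I z).re = Real.exp l.re * Real.cos l.im := by
      rw [← hexp, Complex.exp_re]
    have hF : F3 θ k z = (k : ℂ) * cv Complex.I z *
        Complex.exp (-((1 + θ * Complex.I) / 2 * l)) := by
      rw [hl]
      rfl
    have h4 : ‖F3 θ k z‖ ^ 2 < ρ3 θ k l.im := by
      rw [hF]
      unfold ρ3
      rw [norm_mul, norm_mul, Complex.norm_real, Real.norm_of_nonneg hk.1.le, Complex.norm_exp,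
        mul_pow, mul_pow, ← Real.exp_nat_mul]
      have e1 : ((2 : ℕ) : ℝ) * (-((1 + θ * Complex.I) / 2 * l)).re = θ * l.im - l.re := by
        simp
        ring
      rw [e1]
      have h5 : 0 < k ^ 2 * Real.exp (θ * l.im - l.re) := by
        have := hk.1
        positivity
      have h6 := mul_lt_mul_of_pos_right h1 h5
      rw [hure] at h6
      have e2 : Real.exp (θ * l.im) = Real.exp l.re * Real.exp (θ * l.im - l.re) := by
        rw [← Real.exp_add]
        congr 1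
        ring
      rw [e2]
      calc k ^ 2 * ‖cv Complex.I z‖ ^ 2 * Real.exp (θ * l.im - l.re)
          = ‖cv Complex.I z‖ ^ 2 * (k ^ 2 * Real.exp (θ * l.im - l.re)) := by ring
        _ < _ := h6
        _ = _ := by ring
    have hs1 : (-(Complex.I * l)).re = l.im := by simp
    have hmem : l.im ∈ Ioo (-(Real.pi / 2)) (Real.pi / 2) := abs_lt.1 hlim
    refine ⟨?_, -(Complex.I * l), ⟨by rwa [hs1], by rwa [hs1]⟩, ?_⟩
    · rw [mem_ball_zero_iff]
      have h5 := h4.trans_le (ρ3_le hk hmem)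
      nlinarith [norm_nonneg (F3 θ k z)]
    · unfold Φ3
      have e0 : Complex.I * -(Complex.I * l) = l := by
        rw [mul_neg, ← mul_assoc, Complex.I_mul_I]
        ring
      rw [e0, hexp]
      have e1 : F3 θ k z * Complex.exp ((1 + θ * Complex.I) / 2 * l) / k = cv Complex.I z := by
        rw [hF, Complex.exp_neg]
        have := Complex.exp_ne_zero ((1 + θ * Complex.I) / 2 * l)
        field_simp
      rw [e1, h2]
  · intro w hw y
    refine SecS_ball (h0 := h0) (κ := h0) (A := (1 + |θ|) ^ 2) (by positivity) hh0p le_rfl ?_ ?_ ?_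
      hw y
    · rw [← mul_pow]
      refine pow_le_one₀ (by positivity) ?_
      calc (1 + |θ|) * h0 ≤ (1 + |θ|) * (1 / (2 * (1 + |θ|))) :=
            mul_le_mul_of_nonneg_left hh1 hTp.le
        _ = 1 / 2 := by field_simp
        _ ≤ 1 := by norm_num
    · intro h hh
      have h5 := abs_lt.1 hh
      constructor <;> linarith [h5.1, h5.2]
    · intro h hh
      exact ρ3_lower hk (hh.trans_le hh1)
  · intro w _
    refine Pu_diff hI (by fun_prop) (by fun_prop) fun t ht => ?_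
    exact re_pos_of (v3_lt hk.1 ht)
  · intro y
    refine Pu_diff hI (differentiableOn_const _) (by fun_prop) fun t _ => ?_
    rw [exp_Is_re]
    refine mul_pos (Real.exp_pos _) ?_
    have e1 : (((Real.arctan θ : ℝ) : ℂ) + y * Complex.I).re = Real.arctan θ := by
      rw [Complex.add_re, Complex.ofReal_re, Complex.re_ofReal_mul, Complex.I_re, mul_zero,
        add_zero]
    rw [e1]
    exact Real.cos_pos_of_mem_Ioo hat

/-- the family (3) is extreme -/
theorem fam3 {θ k : ℝ} (hk : Norm3 θ k) {c : ℂ} (hc : ‖c‖ = 1) :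
    IsExtremePoint 2 (fun z => (1 + c * F3 θ k z) / (1 - c * F3 θ k z)) := by
  obtain ⟨κ, h⟩ := fibred3 hk
  exact h.extreme hc

end

end Pool.Agent.Lib.MP_6ff8d9_an.N2.H50X
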