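import Pool.Agent.Lib.MP_6ff8d9_an_h50.SymChp
import Pool.Agent.Lib.MP_6ff8d9_an_h50.Fam3

/-!
# MP_6ff8d9 symmetric rows, S3: the hyperbolic chart
-/

open Metric Set Filter Topology
open scoped ComplexConjugate

namespace Pool.Agent.Lib.MP_6ff8d9_an.N2

open Pool.Agent.Lib.MP_6ff8d9_an Pool.Agent.Lib.MP_6ff8d9_an.H22

noncomputable section

namespace H50S

open H50X

/-- a chart from a fibration -/
lemma fchart_of {F : (Fin 2 → ℂ) → ℂ} {F' : Cn 2 → ℂ} {Ps : ℂ → ℂ → Fin 2 → ℂ}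
    {Φ : ℂ → ℂ → Cn 2} {I : ℂ → Set ℝ} {y₀ δ : ℝ}
    (h : Fibred 2 F' Φ (fun w => {s : ℂ | s.re ∈ I w}) y₀ δ)
    (hF : ∀ z ∈ Bn 2, F z = F' (WithLp.toLp 2 z))
    (hPs : ∀ w ζ : ℂ, Ps w ζ = fun i => Φ w (-(Complex.I * ζ)) i)
    (ho : ∀ w, ‖w‖ < 1 → IsOpen (I w)) (hc : ∀ w, ‖w‖ < 1 → (I w).OrdConnected) :
    FChart F Ps I y₀ δ := by
  have hw : ∀ w : ℂ, ‖w‖ < 1 → w ∈ ball (0 : ℂ) 1 := fun w hw => mem_ball_zero_iff.2 hw
  have him : ∀ ζ : ℂ, (-(Complex.I * ζ)).re = ζ.im := fun ζ => by simp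
  have e0 : ∀ s : ℂ, -(Complex.I * (Complex.I * s)) = s := by
    intro s
    rw [← mul_assoc, Complex.I_mul_I]
    ring
  have htoLp : ∀ Z : Cn 2, (WithLp.toLp 2 (fun i => Z i) : Cn 2) = Z := fun Z => rfl
  refine ⟨h.pos, ?_, ?_, ?_, ho, hc, ?_, ?_, ?_, ?_, ?_, ?_⟩
  · have h4 : Differentiable ℂ (fun z : Fin 2 → ℂ => (WithLp.toLp 2 z : Cn 2)) :=
      (PiLp.continuousLinearEquiv 2 ℂ (fun _ : Fin 2 => ℂ)).symm.differentiable
    have h5 := h.an.comp h4.differentiableOn (s := Bn 2) fun z hz => toLp_mem hz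
    exact h5.congr fun z hz => hF z hz
  · intro z hz
    rw [hF z hz]
    exact mem_ball_zero_iff.1 (h.surj _ (toLp_mem hz)).1
  · have h1 : (0 : Fin 2 → ℂ) ∈ Bn 2 := by
      change ∑ i, ‖(0 : Fin 2 → ℂ) i‖ ^ 2 < 1
      simp
    rw [hF 0 h1]
    exact h.zero
  · intro w hw1 y hy
    have h1 : ((y : ℝ) : ℂ) ∈ ball ((y₀ : ℂ) + (0 : ℝ) * Complex.I) (δ * √(1 - ‖w‖ ^ 2)) := by
      rw [mem_ball, dist_eq_norm]
      have e1 : (y : ℂ) - ((y₀ : ℂ) + (0 : ℝ) * Complex.I) = ((y - y₀ : ℝ) : ℂ) := by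
        push_cast
        ring
      rw [e1, Complex.norm_real]
      exact hy
    have h2 := h.sub w (hw w hw1) 0 h1
    have h3 : ((y : ℝ) : ℂ).re ∈ I w := h2
    rwa [Complex.ofReal_re] at h3
  · intro w ζ hw1 hζ
    have h1 : (-(Complex.I * ζ)) ∈ {s : ℂ | s.re ∈ I w} := by
      change (-(Complex.I * ζ)).re ∈ I w
      rwa [him]
    rw [hPs]
    exact mem_toBn (h.mem w (hw w hw1) _ h1).1
  · intro w ζ hw1 hζ
    have h1 : (-(Complex.I * ζ)) ∈ {s : ℂ | s.re ∈ I w} := by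
      change (-(Complex.I * ζ)).re ∈ I w
      rwa [him]
    have h2 := h.mem w (hw w hw1) _ h1
    rw [hPs, hF _ (mem_toBn h2.1), htoLp]
    exact h2.2
  · intro w hw1
    have h1 := (h.ds w (hw w hw1)).comp (f := fun ζ : ℂ => -(Complex.I * ζ))
      (s := {ζ : ℂ | ζ.im ∈ I w}) (by fun_prop) fun ζ hζ => by
        change (-(Complex.I * ζ)).re ∈ I w
        rwa [him]
    rw [differentiableOn_euclidean] at h1
    rw [differentiableOn_pi]
    intro i
    have e1 : (fun ζ => Ps w ζ i) = fun ζ => Φ w (-(Complex.I * ζ)) i := by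
      funext ζ
      rw [hPs]
    rw [e1]
    exact h1 i
  · intro ζ hζ
    have h1 := h.dw (-ζ.re)
    have e2 : (y₀ : ℂ) + ((-ζ.re : ℝ) : ℂ) * Complex.I = -(Complex.I * ζ) := by
      apply Complex.ext
      · rw [him, Complex.add_re, Complex.ofReal_re, Complex.re_ofReal_mul, Complex.I_re, hζ]
        ring
      · rw [Complex.add_im, Complex.ofReal_im, Complex.im_ofReal_mul, Complex.I_im]
        simp
    rw [e2] at h1
    rw [differentiableOn_euclidean] at h1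
    rw [differentiableOn_pi]
    intro i
    have e1 : (fun w => Ps w ζ i) = fun w => Φ w (-(Complex.I * ζ)) i := by
      funext w
      rw [hPs]
    rw [e1]
    exact h1 i
  · intro z hz
    obtain ⟨_, s, hs, h2⟩ := h.surj _ (toLp_mem hz)
    rw [← hF z hz] at hs h2
    refine ⟨Complex.I * s, ?_, ?_⟩
    · have e1 : (Complex.I * s).im = s.re := by simp
      rw [e1]
      exact hs
    · rw [hPs, e0, h2]

lemma kH_pos (θ : ℝ) : 0 < kH θ := by
  unfold kH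
  positivity

lemma kH_sq (θ : ℝ) : kH θ ^ 2 = √(1 + θ ^ 2) * Real.exp (-(θ * Real.arctan θ)) := by
  unfold kH
  rw [mul_pow, Real.sq_sqrt (by positivity), ← Real.exp_nat_mul]
  congr 2
  push_cast
  ring

lemma norm3_kH (θ : ℝ) : Norm3 θ (kH θ) := by
  refine ⟨kH_pos θ, ?_⟩
  unfold ρ3
  rw [kH_sq, Real.cos_arctan, Real.exp_neg]
  have h1 : 0 < √(1 + θ ^ 2) := Real.sqrt_pos.2 (by positivity)
  have h2 := Real.exp_pos (θ * Real.arctan θ)
  field_simp

/-- the two expressions of the function -/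
lemma fH_eq (θ : ℝ) {z : Fin 2 → ℂ} (hz : z ∈ Bn 2) :
    fH θ z = F3 θ (kH θ) (WithLp.toLp 2 z) := by
  have h0 : ‖z 0‖ < 1 := by
    have h1 : ∑ i, ‖z i‖ ^ 2 < 1 := hz
    rw [Fin.sum_univ_two] at h1
    nlinarith [norm_nonneg (z 0), sq_nonneg ‖z 1‖]
  have hIz : ‖Complex.I * z 0‖ < 1 := by
    rw [norm_mul, Complex.norm_I, one_mul]
    exact h0
  have hre : |(Complex.I * z 0).re| < 1 := (Complex.abs_re_le_norm _).trans_lt hIz
  have hp1 : 0 < (1 + Complex.I * z 0).re := by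
    rw [Complex.add_re, Complex.one_re]
    linarith [(abs_lt.1 hre).1]
  have hp2 : 0 < (1 - Complex.I * z 0).re := by
    rw [Complex.sub_re, Complex.one_re]
    linarith [(abs_lt.1 hre).2]
  have hn1 : 1 + Complex.I * z 0 ≠ 0 := by
    intro h
    rw [h] at hp1
    simp at hp1
  have hn2 : 1 - Complex.I * z 0 ≠ 0 := by
    intro h
    rw [h] at hp2
    simp at hp2
  have ha1 := Complex.abs_arg_lt_pi_div_two_iff.2 (Or.inl hp1)
  have ha2 := Complex.abs_arg_lt_pi_div_two_iff.2 (Or.inl hp2)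
  have ha1' := abs_lt.1 ha1
  have ha2' := abs_lt.1 ha2
  obtain ⟨A, hA⟩ : ∃ A : ℂ, A = Complex.log (1 + Complex.I * z 0) := ⟨_, rfl⟩
  obtain ⟨B, hB⟩ : ∃ B : ℂ, B = Complex.log (1 - Complex.I * z 0) := ⟨_, rfl⟩
  have heA : Complex.exp A = 1 + Complex.I * z 0 := by
    rw [hA]
    exact Complex.exp_log hn1
  have heB : Complex.exp B = 1 - Complex.I * z 0 := by
    rw [hB]
    exact Complex.exp_log hn2
  have hlog : Complex.log ((1 + Complex.I * z 0) / (1 - Complex.I * z 0)) = A - B := by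
    rw [← heA, ← heB, ← Complex.exp_sub]
    have hAi : A.im = (1 + Complex.I * z 0).arg := by rw [hA, Complex.log_im]
    have hBi : B.im = (1 - Complex.I * z 0).arg := by rw [hB, Complex.log_im]
    refine Complex.log_exp ?_ ?_
    · rw [Complex.sub_im, hAi, hBi]
      linarith [ha1'.1, ha2'.2]
    · rw [Complex.sub_im, hAi, hBi]
      linarith [ha1'.2, ha2'.1]
  unfold fH F3 cu cv
  change _ = (kH θ : ℂ) * (z 1 / (1 - Complex.I * z 0)) *
    Complex.exp (-((1 + θ * Complex.I) / 2 *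
      Complex.log ((1 + Complex.I * z 0) / (1 - Complex.I * z 0))))
  rw [hlog, ← hA, ← hB]
  have e1 : z 1 / (1 - Complex.I * z 0) = z 1 * Complex.exp (-B) := by
    rw [Complex.exp_neg, heB, div_eq_mul_inv]
  rw [e1]
  have e2 : Complex.exp (-((1 + θ * Complex.I) / 2 * A) - (1 - θ * Complex.I) / 2 * B) =
      Complex.exp (-B) * Complex.exp (-((1 + θ * Complex.I) / 2 * (A - B))) := by
    rw [← Complex.exp_add]
    congr 1
    ring
  rw [e2]
  ring

end H50S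

open H50S H50X in
/-- row S3 -/
theorem chh : CHH := by
  intro θ
  obtain ⟨κ, h⟩ := fibred3 (norm3_kH θ)
  have hset : ∀ w : ℂ, iH θ w =
      {y | y ∈ Ioo (-(Real.pi / 2)) (Real.pi / 2) ∧ ‖w‖ ^ 2 < ρ3 θ (kH θ) y} := by
    intro w
    ext y
    change (|y| < Real.pi / 2 ∧ _) ↔ _
    rw [abs_lt]
    unfold ρ3
    rw [mul_comm (Real.cos y)]
    rfl
  have hsec : (fun w => {s : ℂ | s.re ∈ iH θ w}) =
      SecS (Ioo (-(Real.pi / 2)) (Real.pi / 2)) (ρ3 θ (kH θ)) := by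
    funext w
    rw [hset]
    rfl
  rw [← hsec] at h
  refine ⟨κ, fchart_of h (fun z hz => fH_eq θ hz) ?_ ?_ ?_⟩
  · intro w ζ
    have e0 : Complex.I * -(Complex.I * ζ) = ζ := by
      rw [mul_neg, ← mul_assoc, Complex.I_mul_I]
      ring
    funext i
    unfold psH Φ3
    rw [e0]
    fin_cases i
    · change -Complex.I * ((Complex.exp ζ - 1) / (Complex.exp ζ + 1)) = Pu _ _ _ 0
      rw [Pu0, div_mul_eq_div_div_swap, div_eq_mul_inv _ Complex.I, Complex.inv_I]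
      ring
    · change 2 * (w * Complex.exp (ζ * ((1 + θ * Complex.I) / 2)) / kH θ) /
        (Complex.exp ζ + 1) = Pu _ _ _ 1
      rw [Pu1, mul_comm ζ]
  · intro w _
    rw [hset]
    exact isOpen_Ioo.inter (isOpen_lt continuous_const (ρ3_cont θ _))
  · intro w _
    rw [hset]
    exact ordConn_of ordConnected_Ioo (ρ3_mono θ _) (ρ3_anti θ _) (‖w‖ ^ 2)

end

end Pool.Agent.Lib.MP_6ff8d9_an.N2
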