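import Pool.Agent.Lib.MP_6ff8d9_an_h23.N2Rows
import Pool.Agent.Lib.MP_6ff8d9_an_h20.FinalP

/-!
# MP_6ff8d9, dimension 2, rows MAXM and MONO
-/

open Metric Set Filter Topology MvPolynomial
open scoped ComplexConjugate

namespace Pool.Agent.Lib.MP_6ff8d9_an.N2.H50M

open Pool.Agent.Lib.MP_6ff8d9_an Pool.Agent.Lib.MP_6ff8d9_an.H22

noncomputable section

/-- weighted arithmetic-geometric mean inequality with integer weights -/
lemma wamgm {a b : ℕ} (ha : 1 ≤ a) (hb : 1 ≤ b) {x y : ℝ} (hx : 0 ≤ x) (hy : 0 ≤ y) :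
    ((a : ℝ) + b) ^ (a + b) * (x ^ a * y ^ b) ≤
      ((a : ℝ) ^ a * (b : ℝ) ^ b) * (x + y) ^ (a + b) := by
  have ha0 : (0 : ℝ) < a := by exact_mod_cast ha
  have hb0 : (0 : ℝ) < b := by exact_mod_cast hb
  have hm0 : (0 : ℝ) < (a : ℝ) + b := by positivity
  have hx' : 0 ≤ ((a : ℝ) + b) * x / a := by positivity
  have hy' : 0 ≤ ((a : ℝ) + b) * y / b := by positivity
  have h1 := Real.geom_mean_le_arith_mean2_weighted (w₁ := a / ((a : ℝ) + b))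
    (w₂ := b / ((a : ℝ) + b)) (p₁ := ((a : ℝ) + b) * x / a) (p₂ := ((a : ℝ) + b) * y / b)
    (by positivity) (by positivity) hx' hy' (by field_simp)
  have h2 : a / ((a : ℝ) + b) * (((a : ℝ) + b) * x / a) + b / ((a : ℝ) + b) *
      (((a : ℝ) + b) * y / b) = x + y := by
    field_simp
  rw [h2] at h1
  have h3 := pow_le_pow_left₀ (by positivity) h1 (a + b)
  rw [mul_pow, ← Real.rpow_mul_natCast hx', ← Real.rpow_mul_natCast hy'] at h3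
  have e1 : (a : ℝ) / ((a : ℝ) + b) * ((a + b : ℕ) : ℝ) = a := by
    push_cast
    field_simp
  have e2 : (b : ℝ) / ((a : ℝ) + b) * ((a + b : ℕ) : ℝ) = b := by
    push_cast
    field_simp
  rw [e1, e2, Real.rpow_natCast, Real.rpow_natCast, div_pow, div_pow, mul_pow, mul_pow] at h3
  have h4 : ((a : ℝ) + b) ^ a * x ^ a / (a : ℝ) ^ a * (((a : ℝ) + b) ^ b * y ^ b / (b : ℝ) ^ b) =
      ((a : ℝ) + b) ^ (a + b) * (x ^ a * y ^ b) / ((a : ℝ) ^ a * (b : ℝ) ^ b) := by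
    rw [pow_add]
    field_simp
  rw [h4, div_le_iff₀ (by positivity)] at h3
  rw [mul_comm ((a : ℝ) ^ a * (b : ℝ) ^ b)]
  exact h3

/-- row MAXM -/
theorem maxm : MAXM := by
  intro a b c ha hb hS z hz
  have ha0 : (0 : ℝ) < a := by exact_mod_cast ha
  have hb0 : (0 : ℝ) < b := by exact_mod_cast hb
  have hz1 : ‖z 0‖ ^ 2 + ‖z 1‖ ^ 2 < 1 := by
    have h1 : ∑ i, ‖z i‖ ^ 2 < 1 := hz
    rwa [Fin.sum_univ_two] at h1
  have h1 := wamgm ha hb (sq_nonneg ‖z 0‖) (sq_nonneg ‖z 1‖)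
  unfold Sharp at hS
  rw [← hS] at h1
  have hA : 0 < (a : ℝ) ^ a * (b : ℝ) ^ b := by positivity
  have h2 : ‖c‖ ^ 2 * ((‖z 0‖ ^ 2) ^ a * (‖z 1‖ ^ 2) ^ b) ≤
      (‖z 0‖ ^ 2 + ‖z 1‖ ^ 2) ^ (a + b) := by
    refine le_of_mul_le_mul_left ?_ hA
    refine le_trans (le_of_eq ?_) h1
    ring
  have h3 : (‖z 0‖ ^ 2 + ‖z 1‖ ^ 2) ^ (a + b) < 1 :=
    pow_lt_one₀ (by positivity) hz1 (by omega)
  have h4 : ‖c * z 0 ^ a * z 1 ^ b‖ ^ 2 < 1 := by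
    rw [norm_mul, norm_mul, norm_pow, norm_pow]
    refine lt_of_le_of_lt (le_of_eq ?_) (h2.trans_lt h3)
    rw [mul_pow, mul_pow, ← pow_mul, ← pow_mul, ← pow_mul, ← pow_mul, mul_comm a 2, mul_comm b 2]
    ring
  nlinarith [norm_nonneg (c * z 0 ^ a * z 1 ^ b)]

/-- the monomial -/
def fm (a b : ℕ) (c : ℂ) : MvPolynomial (Fin 2) ℂ := C c * X 0 ^ a * X 1 ^ b

lemma eval_fm (a b : ℕ) (c : ℂ) (z : Fin 2 → ℂ) : eval z (fm a b c) = c * z 0 ^ a * z 1 ^ b := by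
  simp [fm]

lemma fm_ne {a b : ℕ} {c : ℂ} (hc : c ≠ 0) : fm a b c ≠ 0 := by
  intro h
  have h1 := eval_fm a b c (fun _ => 1)
  rw [h, map_zero] at h1
  simp at h1
  exact hc h1.symm

lemma pd0 (p b : ℕ) (c : ℂ) (z : Fin 2 → ℂ) :
    eval z (pderiv 0 (fm (p + 1) b c)) = c * ((p + 1) * z 0 ^ p) * z 1 ^ b := by
  unfold fm
  rw [pderiv_mul, pderiv_C_mul, pderiv_pow, pderiv_pow, pderiv_X_self,
    pderiv_X_of_ne (by decide : (1 : Fin 2) ≠ 0)]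
  simp

lemma pd1 (a q : ℕ) (c : ℂ) (z : Fin 2 → ℂ) :
    eval z (pderiv 1 (fm a (q + 1) c)) = c * z 0 ^ a * ((q + 1) * z 1 ^ q) := by
  unfold fm
  rw [pderiv_mul, pderiv_C_mul, pderiv_pow, pderiv_pow, pderiv_X_self,
    pderiv_X_of_ne (by decide : (0 : Fin 2) ≠ 1)]
  simp

lemma deg0 {a b : ℕ} {c : ℂ} (hc : c ≠ 0) : degreeOf 0 (fm a b c) = a := by
  have h1 : (C c : MvPolynomial (Fin 2) ℂ) ≠ 0 := by
    rw [Ne, C_eq_zero]
    exact hc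
  have h2 : (X 0 ^ a : MvPolynomial (Fin 2) ℂ) ≠ 0 := pow_ne_zero _ (X_ne_zero _)
  have h3 : (X 1 ^ b : MvPolynomial (Fin 2) ℂ) ≠ 0 := pow_ne_zero _ (X_ne_zero _)
  unfold fm
  rw [degreeOf_mul_eq (mul_ne_zero h1 h2) h3, degreeOf_mul_eq h1 h2, degreeOf_C,
    degreeOf_pow_eq _ _ _ (X_ne_zero _), degreeOf_pow_eq _ _ _ (X_ne_zero _), degreeOf_X,
    degreeOf_X]
  simp

lemma deg1 {a b : ℕ} {c : ℂ} (hc : c ≠ 0) : degreeOf 1 (fm a b c) = b := by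
  have h1 : (C c : MvPolynomial (Fin 2) ℂ) ≠ 0 := by
    rw [Ne, C_eq_zero]
    exact hc
  have h2 : (X 0 ^ a : MvPolynomial (Fin 2) ℂ) ≠ 0 := pow_ne_zero _ (X_ne_zero _)
  have h3 : (X 1 ^ b : MvPolynomial (Fin 2) ℂ) ≠ 0 := pow_ne_zero _ (X_ne_zero _)
  unfold fm
  rw [degreeOf_mul_eq (mul_ne_zero h1 h2) h3, degreeOf_mul_eq h1 h2, degreeOf_C,
    degreeOf_pow_eq _ _ _ (X_ne_zero _), degreeOf_pow_eq _ _ _ (X_ne_zero _), degreeOf_X,
    degreeOf_X]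
  simp

lemma not_pow {a b : ℕ} {c : ℂ} (hc : c ≠ 0) (hab : a.Coprime b) :
    ¬ ∃ k : ℕ, 2 ≤ k ∧ ∃ P : MvPolynomial (Fin 2) ℂ, fm a b c = P ^ k := by
  rintro ⟨k, hk, P, hP⟩
  have hP0 : P ≠ 0 := by
    intro h
    rw [h, zero_pow (by omega)] at hP
    exact fm_ne hc hP
  have h0 : a = k * degreeOf 0 P := by
    rw [← degreeOf_pow_eq _ _ _ hP0, ← hP, deg0 hc]
  have h1 : b = k * degreeOf 1 P := by
    rw [← degreeOf_pow_eq _ _ _ hP0, ← hP, deg1 hc]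
  have h2 : k ∣ 1 := by
    rw [← hab.gcd_eq_one]
    exact Nat.dvd_gcd ⟨_, h0⟩ ⟨_, h1⟩
  have h3 := Nat.le_of_dvd one_pos h2
  omega

lemma hom (a b : ℕ) (c : ℂ) : (fm a b c).IsHomogeneous (a + b) := by
  unfold fm
  have h1 := ((isHomogeneous_C (Fin 2) c).mul (isHomogeneous_X_pow (R := ℂ) (0 : Fin 2) a)).mul
    (isHomogeneous_X_pow (R := ℂ) (1 : Fin 2) b)
  rwa [zero_add] at h1

/-- row MONO -/
theorem mono : MONO := by
  intro a b c ha hb hab hS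
  obtain ⟨p, rfl⟩ : ∃ p, a = p + 1 := ⟨a - 1, by omega⟩
  obtain ⟨q, rfl⟩ : ∃ q, b = q + 1 := ⟨b - 1, by omega⟩
  have hc : c ≠ 0 := by
    intro h
    unfold Sharp at hS
    rw [h, norm_zero] at hS
    have h1 : (0 : ℝ) < (((p + 1 : ℕ) : ℝ) + ((q + 1 : ℕ) : ℝ)) ^ (p + 1 + (q + 1)) := by positivity
    rw [← hS] at h1
    simp at h1
  have hS2 : conj c * c * (((p : ℂ) + 1) ^ (p + 1) * ((q : ℂ) + 1) ^ (q + 1)) =
      ((p + 1 + (q + 1) : ℕ) : ℂ) ^ (p + 1 + (q + 1)) := by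
    have h1 : conj c * c = ((‖c‖ ^ 2 : ℝ) : ℂ) := by
      rw [Complex.conj_mul']
      push_cast
      rfl
    unfold Sharp at hS
    have h2 := congrArg (fun x : ℝ => (x : ℂ)) hS
    rw [h1]
    push_cast at h2 ⊢
    exact h2
  have hg : gmon (p + 1) (q + 1) c = fun z : Cn 2 =>
      (1 + eval (fun i => z i) (fm (p + 1) (q + 1) c)) /
        (1 - eval (fun i => z i) (fm (p + 1) (q + 1) c)) := by
    funext z
    rw [eval_fm]
    rfl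
  rw [hg]
  refine (Hom.H20.mainQ le_rfl (fm (p + 1) (q + 1) c)).2 ⟨not_pow hc hab, p + 1 + (q + 1), by omega,
    hom _ _ _, fun z i => ?_⟩
  have hexp : p + 1 + (q + 1) - 2 = p + q := by omega
  rw [hexp, eval_fm, ← hS2]
  fin_cases i
  · change conj (eval (fun j => conj (eval z (pderiv j (fm (p + 1) (q + 1) c))))
      (pderiv 0 (fm (p + 1) (q + 1) c))) = _ * z 0
    rw [pd0, pd0, pd1]
    simp only [map_mul, map_pow, map_add, map_one, Complex.conj_conj, Complex.conj_natCast]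
    generalize (p : ℂ) + 1 = A
    generalize (q : ℂ) + 1 = B
    ring
  · change conj (eval (fun j => conj (eval z (pderiv j (fm (p + 1) (q + 1) c))))
      (pderiv 1 (fm (p + 1) (q + 1) c))) = _ * z 1
    rw [pd1, pd0, pd1]
    simp only [map_mul, map_pow, map_add, map_one, Complex.conj_conj, Complex.conj_natCast]
    generalize (p : ℂ) + 1 = A
    generalize (q : ℂ) + 1 = B
    ring

end

end Pool.Agent.Lib.MP_6ff8d9_an.N2.H50M
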