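import Pool.Agent.Lib.MP_6ff8d9_an_h11.Rows

/-!
# Row DECR: decreasing limits of harmonic functions
-/

open Metric Filter Topology InnerProductSpace Real MeasureTheory

namespace Pool.Agent.Lib.MP_6ff8d9_an.H50

open Pool.Agent.Lib.MP_6ff8d9_an.H11

noncomputable section

/-- the Poisson integral of a circle integrable function is harmonic -/
theorem pi_harm {U : ℂ → ℝ} {a : ℂ} {ρ : ℝ} (hU : CircleIntegrable U a ρ) :
    HarmonicOnNhd (PI U a ρ) (ball a ρ) := by
  set V : ℂ → ℝ := fun ζ => U (ζ + a) with hV
  have hVi : CircleIntegrable V 0 ρ := by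
    have : (fun θ => V (circleMap 0 ρ θ)) = fun θ => U (circleMap a ρ θ) := by
      funext θ
      simp [hV, circleMap, add_comm]
    unfold CircleIntegrable
    rw [this]
    exact hU
  have hVc : CircleIntegrable (fun ζ => (V ζ : ℂ)) 0 ρ := by
    simp only [CircleIntegrable, intervalIntegrable_iff] at hVi ⊢
    exact Complex.ofRealCLM.integrable_comp hVi
  have hA := analyticOnNhd_circleAverage_herglotzRieszKernel_smul (R := ρ) hVc
  intro w hw
  have hw0 : w - a ∈ ball (0 : ℂ) ρ := by
    rw [mem_ball_zero_iff]
    rwa [mem_ball_iff_norm] at hw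
  have h1 := (hA (w - a) hw0)
  have h2 : AnalyticAt ℂ (fun w : ℂ => w - a) w := by fun_prop
  have h3 := AnalyticAt.fun_comp (f := fun w : ℂ => w - a) h1 h2
  have h4 := h3.harmonicAt_re
  refine (harmonicAt_congr_nhds ?_).2 h4
  filter_upwards [isOpen_ball.mem_nhds hw] with w' hw'
  have hw1 : w' - a ∈ ball (0 : ℂ) ρ := by
    rw [mem_ball_zero_iff]
    rwa [mem_ball_iff_norm] at hw'
  rw [re_circleAverage_herglotzRieszKernel_smul hVi hw1, ← poissonKernel_eq_re_herglotzRieszKernel]
  unfold PI
  rw [← circleAverage_map_add_const]
  congr 1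
  funext ζ
  simp [poissonKernel_def, hV]

theorem decr : DECR := by
  intro a ρ h l v hh hd hl hle hlim c0 hc0
  -- smaller radius
  obtain ⟨r, hr1, hr2⟩ : ∃ r, dist c0 a < r ∧ r < ρ := exists_between (mem_ball.1 hc0)
  have hr : 0 < r := lt_of_le_of_lt dist_nonneg hr1
  have hcb : closedBall a r ⊆ ball a ρ := closedBall_subset_ball hr2
  have hsb : sphere a r ⊆ ball a ρ := sphere_subset_closedBall.trans hcb
  have hanti : ∀ c ∈ ball a ρ, ∀ i, h i c ≤ h 0 c := by
    intro c hc i
    induction i with
    | zero => exact le_rfl
    | succ k ih => exact (hd k c hc).trans ih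
  have hvle : ∀ c ∈ ball a ρ, v c ≤ h 0 c := fun c hc =>
    le_of_tendsto (hlim c hc) (Eventually.of_forall fun i => hanti c hc i)
  have hlv : ∀ c ∈ ball a ρ, l c ≤ v c := fun c hc =>
    ge_of_tendsto (hlim c hc) (Eventually.of_forall fun i => hle i c hc)
  have hmem : ∀ θ, circleMap a r θ ∈ ball a ρ := fun θ =>
    hsb (circleMap_mem_sphere a hr.le θ)
  have hcont : ∀ i, Continuous fun θ => h i (circleMap a r θ) := fun i =>
    (hh i).continuousOn.comp_continuous (continuous_circleMap a r) hmem
  have hlc : Continuous fun θ => l (circleMap a r θ) :=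
    hl.comp_continuous (continuous_circleMap a r) hmem
  have hvm : Measurable fun θ => v (circleMap a r θ) := by
    refine measurable_of_tendsto_metrizable (fun i => (hcont i).measurable) ?_
    rw [tendsto_pi_nhds]
    exact fun θ => hlim _ (hmem θ)
  have hbd : ∀ θ, |v (circleMap a r θ)| ≤ |l (circleMap a r θ)| + |h 0 (circleMap a r θ)| := by
    intro θ
    have h1 := hvle _ (hmem θ)
    have h2 := hlv _ (hmem θ)
    rw [abs_le]
    constructor
    · have := neg_abs_le (l (circleMap a r θ))
      have := abs_nonneg (h 0 (circleMap a r θ))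
      linarith
    · have := le_abs_self (h 0 (circleMap a r θ))
      have := abs_nonneg (l (circleMap a r θ))
      linarith
  have hvi : CircleIntegrable v a r := by
    unfold CircleIntegrable
    refine IntervalIntegrable.mono_fun
      (f := fun θ => |l (circleMap a r θ)| + |h 0 (circleMap a r θ)|) ?_
      hvm.aestronglyMeasurable (Eventually.of_forall fun θ => ?_)
    · exact (hlc.abs.add (hcont 0).abs).intervalIntegrable _ _
    · simp only [Real.norm_eq_abs]
      exact (hbd θ).trans (le_abs_self _)
  -- `v` is its Poisson integral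
  have hpv : ∀ w ∈ ball a r, v w = PI v a r w := by
    intro w hw
    have hwρ : w ∈ ball a ρ := ball_subset_closedBall.trans hcb hw
    have h1 : ∀ i, PI (h i) a r w = h i w := by
      intro i
      have := InnerProductSpace.HarmonicOnNhd.circleAverage_poissonKernel_smul
        (f := h i) ((hh i).mono hcb) hw
      simpa [PI, Pi.smul_def', smul_eq_mul, Pi.mul_def] using this
    have hk : Continuous fun θ => poissonKernel a w (circleMap a r θ) := by
      have : ContinuousOn (poissonKernel a w) (sphere a |r|) := by
        rw [poissonKernel_eq_re_herglotzRieszKernel]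
        exact Complex.continuous_re.comp_continuousOn (continuousOn_herglotzRieszKernel_sphere hw)
      exact this.comp_continuous (continuous_circleMap a r) fun θ => circleMap_mem_sphere' a r θ
    have h2 : Tendsto (fun i => PI (h i) a r w) atTop (𝓝 (PI v a r w)) := by
      unfold PI
      simp only [circleAverage_def]
      apply Tendsto.const_smul
      apply intervalIntegral.tendsto_integral_filter_of_dominated_convergence
        (fun θ => |poissonKernel a w (circleMap a r θ)| *
          (|l (circleMap a r θ)| + |h 0 (circleMap a r θ)|))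
      · exact Eventually.of_forall fun i => (hk.mul (hcont i)).aestronglyMeasurable
      · refine Eventually.of_forall fun i => Eventually.of_forall fun θ _ => ?_
        rw [norm_mul, Real.norm_eq_abs, Real.norm_eq_abs]
        apply mul_le_mul_of_nonneg_left _ (abs_nonneg _)
        have e1 := hanti _ (hmem θ) i
        have e2 := hle i _ (hmem θ)
        rw [abs_le]
        constructor
        · have := neg_abs_le (l (circleMap a r θ))
          have := abs_nonneg (h 0 (circleMap a r θ))
          linarith
        · have := le_abs_self (h 0 (circleMap a r θ))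
          have := abs_nonneg (l (circleMap a r θ))
          linarith
      · exact (hk.abs.mul (hlc.abs.add (hcont 0).abs)).intervalIntegrable _ _
      · exact Eventually.of_forall fun θ _ => (hlim _ (hmem θ)).const_mul _
    have h3 : Tendsto (fun i => PI (h i) a r w) atTop (𝓝 (v w)) := by
      simp only [h1]
      exact hlim w hwρ
    exact tendsto_nhds_unique h3 h2
  refine (harmonicAt_congr_nhds ?_).2 (pi_harm hvi c0 (mem_ball.2 hr1))
  filter_upwards [isOpen_ball.mem_nhds (mem_ball.2 hr1)] with w hw
  exact hpv w hw

end

end Pool.Agent.Lib.MP_6ff8d9_an.H50
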