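import Pool.Agent.Lib.MP_6ff8d9_an_h50.Strip

/-!
# MP_6ff8d9: the family `√(2e) v e^{-u}` is extreme
-/

open Metric Set Filter Topology
open scoped ComplexConjugate

namespace Pool.Agent.Lib.MP_6ff8d9_an.N2.H50X

open Pool.Agent.Lib.MP_6ff8d9_an Pool.Agent.Lib.MP_6ff8d9_an.Rat.H82

noncomputable section

/-- the constant -/
def k4 : ℝ := √(2 * Real.exp 1)

lemma k4_pos : 0 < k4 := Real.sqrt_pos.2 (by positivity)

lemma k4_sq : k4 ^ 2 = 2 * Real.exp 1 := Real.sq_sqrt (by positivity)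

/-- `√(2e) v e^{-u}` -/
def F4 (z : Cn 2) : ℂ := (k4 : ℂ) * cv 1 z * Complex.exp (-cu 1 z)

def ρ4 (x : ℝ) : ℝ := 2 * x * Real.exp (1 - 2 * x)

def Φ4 (w s : ℂ) : Cn 2 := Pu 1 s (w * Complex.exp s / k4)

lemma ρ4_deriv (x : ℝ) : HasDerivAt ρ4 (2 * (1 - 2 * x) * Real.exp (1 - 2 * x)) x := by
  have h1 : HasDerivAt (fun x : ℝ => 1 - 2 * x) (-2) x := by
    simpa using ((hasDerivAt_id x).const_mul 2).const_sub 1
  have h2 : HasDerivAt (fun x : ℝ => 2 * x) 2 x := by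
    simpa using (hasDerivAt_id x).const_mul 2
  have h3 := h2.mul h1.exp
  refine h3.congr_deriv ?_
  ring

lemma ρ4_cont : Continuous ρ4 := by
  unfold ρ4
  fun_prop

lemma ρ4_mono : MonotoneOn ρ4 (Ioi 0 ∩ Iic (1 / 2)) := by
  refine monotoneOn_of_deriv_nonneg ?_ ρ4_cont.continuousOn
    (fun x _ => (ρ4_deriv x).differentiableAt.differentiableWithinAt) ?_
  · exact (convex_Ioi 0).inter (convex_Iic _)
  · intro x hx
    have hx' := interior_subset hx
    rw [(ρ4_deriv x).deriv]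
    have h1 : x ≤ 1 / 2 := hx'.2
    have h2 : 0 ≤ 1 - 2 * x := by linarith
    positivity

lemma ρ4_anti : AntitoneOn ρ4 (Ioi 0 ∩ Ici (1 / 2)) := by
  refine antitoneOn_of_deriv_nonpos ?_ ρ4_cont.continuousOn
    (fun x _ => (ρ4_deriv x).differentiableAt.differentiableWithinAt) ?_
  · exact (convex_Ioi 0).inter (convex_Ici _)
  · intro x hx
    have hx' := interior_subset hx
    rw [(ρ4_deriv x).deriv]
    have h1 : 1 / 2 ≤ x := hx'.2
    have h2 : 2 * (1 - 2 * x) ≤ 0 := by linarith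
    exact mul_nonpos_of_nonpos_of_nonneg h2 (Real.exp_pos _).le

lemma ρ4_le (x : ℝ) : ρ4 x ≤ 1 := by
  unfold ρ4
  have h1 := Real.add_one_le_exp (2 * x - 1)
  have h2 : 2 * x ≤ Real.exp (2 * x - 1) := by linarith
  have h3 : Real.exp (2 * x - 1) * Real.exp (1 - 2 * x) = 1 := by
    rw [← Real.exp_add]
    simp
  calc 2 * x * Real.exp (1 - 2 * x) ≤ Real.exp (2 * x - 1) * Real.exp (1 - 2 * x) :=
        mul_le_mul_of_nonneg_right h2 (Real.exp_pos _).le
    _ = 1 := h3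

lemma ρ4_lower {h : ℝ} (hh : |h| < 1 / 2) : 1 - 4 * h ^ 2 ≤ ρ4 (1 / 2 + h) := by
  unfold ρ4
  have h1 := Real.add_one_le_exp (1 - 2 * (1 / 2 + h))
  have h2 : 0 ≤ 2 * (1 / 2 + h) := by
    have := (abs_lt.1 hh).1
    linarith
  calc 1 - 4 * h ^ 2 = 2 * (1 / 2 + h) * (1 - 2 * (1 / 2 + h) + 1) := by ring
    _ ≤ _ := mul_le_mul_of_nonneg_left h1 h2

lemma v4_norm (w s : ℂ) : ‖w * Complex.exp s / k4‖ ^ 2 =
    ‖w‖ ^ 2 * Real.exp (2 * s.re) / (2 * Real.exp 1) := by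
  rw [norm_div, norm_mul, Complex.norm_exp, Complex.norm_real, Real.norm_of_nonneg k4_pos.le,
    div_pow, k4_sq, mul_pow, ← Real.exp_nat_mul]
  norm_num

lemma v4_lt {w s : ℂ} (h : s ∈ SecS (Ioi 0) ρ4 w) : ‖w * Complex.exp s / k4‖ ^ 2 < s.re := by
  rw [v4_norm]
  have h1 : ‖w‖ ^ 2 < 2 * s.re * Real.exp (1 - 2 * s.re) := h.2
  rw [div_lt_iff₀ (by positivity)]
  have h2 := mul_lt_mul_of_pos_right h1 (Real.exp_pos (2 * s.re))
  refine h2.trans_le (le_of_eq ?_)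
  rw [mul_assoc, ← Real.exp_add]
  have e1 : 1 - 2 * s.re + 2 * s.re = 1 := by ring
  rw [e1]
  ring

theorem fibred4 : Fibred 2 F4 Φ4 (SecS (Ioi 0) ρ4) (1 / 2) (1 / 2) := by
  have hk0 : (k4 : ℂ) ≠ 0 := by exact_mod_cast k4_pos.ne'
  refine ⟨by norm_num, ?_, ?_, ?_, ?_, fun w _ => SecS_open isOpen_Ioi ρ4_cont w,
    fun w _ => SecS_conn ordConnected_Ioi ρ4_mono ρ4_anti w, ?_, ?_, ?_⟩
  · have h1 := cu_diff (ε := 1) (by simp)
    have h2 := cv_diff (ε := 1) (by simp)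
    exact (h2.const_mul (k4 : ℂ)).mul h1.neg.cexp
  · unfold F4 cv
    simp
  · intro w _ s hs
    have h1 := v4_lt hs
    have h2 : 0 < s.re := hs.1
    refine ⟨Pu_mem (by simp) h1, ?_⟩
    unfold F4 Φ4
    rw [cv_Pu (by simp) h2, cu_Pu (by simp) h2, Complex.exp_neg]
    have := Complex.exp_ne_zero s
    field_simp
  · intro z hz
    have h1 := chart_lt (ε := 1) (by simp) hz
    have h2 := chart_inv (ε := 1) (by simp) hz
    have h3 : 0 < (cu 1 z).re := re_pos_of h1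
    have h4 : ‖F4 z‖ ^ 2 < ρ4 (cu 1 z).re := by
      unfold F4 ρ4
      rw [norm_mul, norm_mul, Complex.norm_real, Real.norm_of_nonneg k4_pos.le, Complex.norm_exp,
        mul_pow, mul_pow, k4_sq, ← Real.exp_nat_mul, Complex.neg_re]
      have e1 : (2 : ℕ) * -(cu 1 z).re = -(2 * (cu 1 z).re) := by
        push_cast
        ring
      have e2 : Real.exp (1 - 2 * (cu 1 z).re) = Real.exp 1 * Real.exp (-(2 * (cu 1 z).re)) := by
        rw [← Real.exp_add]
        ring_nf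
      rw [e1, e2]
      have h5 : 0 < Real.exp 1 * Real.exp (-(2 * (cu 1 z).re)) := by positivity
      have h6 := mul_lt_mul_of_pos_right h1 h5
      calc 2 * Real.exp 1 * ‖cv 1 z‖ ^ 2 * Real.exp (-(2 * (cu 1 z).re))
          = 2 * (‖cv 1 z‖ ^ 2 * (Real.exp 1 * Real.exp (-(2 * (cu 1 z).re)))) := by ring
        _ < 2 * ((cu 1 z).re * (Real.exp 1 * Real.exp (-(2 * (cu 1 z).re)))) := by linarith
        _ = _ := by ring
    refine ⟨?_, cu 1 z, ⟨h3, h4⟩, ?_⟩
    · rw [mem_ball_zero_iff]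
      have h5 := h4.trans_le (ρ4_le _)
      nlinarith [norm_nonneg (F4 z)]
    · unfold Φ4
      have e1 : F4 z * Complex.exp (cu 1 z) / k4 = cv 1 z := by
        unfold F4
        rw [Complex.exp_neg]
        have := Complex.exp_ne_zero (cu 1 z)
        field_simp
      rw [e1, h2]
  · intro w hw y
    have h1 := SecS_ball (I := Ioi 0) (ρ := ρ4) (x0 := 1 / 2) (A := 4) (h0 := 1 / 2)
      (κ := 1 / 2) (by norm_num) (by norm_num) le_rfl (by norm_num)
      (fun h hh => by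
        have := (abs_lt.1 hh).1
        rw [mem_Ioi]
        linarith) (fun h hh => ρ4_lower hh) hw y
    exact h1
  · intro w _
    exact Pu_diff (by simp) differentiableOn_id (by fun_prop) fun t ht => ht.1
  · intro y
    refine Pu_diff (by simp) (differentiableOn_const _) (by fun_prop) fun t _ => ?_
    simp

/-- the family (4) is extreme -/
theorem fam4 {c : ℂ} (hc : ‖c‖ = 1) : IsExtremePoint 2 (fun z => (1 + c * F4 z) / (1 - c * F4 z)) :=
  fibred4.extreme hc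

end

end Pool.Agent.Lib.MP_6ff8d9_an.N2.H50X
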