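import Pool.Agent.Lib.MP_6ff8d9_an_h50.Xext

/-!
# MP_6ff8d9: extremality of functions whose fibres are strips

If the ball is fibred by the level sets of `F`, every level set `F = w` being parametrised by a
connected open set of the plane which contains the line `Re s = x₀` and the discs of radius
`κ √(1 - |w|²)` around its points, then `(1 + c F) / (1 - c F)`, `|c| = 1`, is extreme.
-/

open Metric Set Filter Topology
open scoped ComplexConjugate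

namespace Pool.Agent.Lib.MP_6ff8d9_an.N2.H50X

open Pool.Agent.Lib.MP_6ff8d9_an Pool.Agent.Lib.MP_6ff8d9_an.Rat.H82

noncomputable section

variable {n : ℕ}

/-- parametrisation of the ball by the values of `F` and a second coordinate -/
structure Fibred (n : ℕ) (F : Cn n → ℂ) (Φ : ℂ → ℂ → Cn n) (Sec : ℂ → Set ℂ) (x0 κ : ℝ) :
    Prop where
  pos : 0 < κ
  an : DifferentiableOn ℂ F (ball 0 1)
  zero : F 0 = 0
  mem : ∀ w ∈ ball (0 : ℂ) 1, ∀ s ∈ Sec w, Φ w s ∈ ball (0 : Cn n) 1 ∧ F (Φ w s) = w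
  surj : ∀ z ∈ ball (0 : Cn n) 1, F z ∈ ball (0 : ℂ) 1 ∧ ∃ s ∈ Sec (F z), Φ (F z) s = z
  opn : ∀ w ∈ ball (0 : ℂ) 1, IsOpen (Sec w)
  conn : ∀ w ∈ ball (0 : ℂ) 1, IsPreconnected (Sec w)
  sub : ∀ w ∈ ball (0 : ℂ) 1, ∀ y : ℝ,
    ball ((x0 : ℂ) + y * Complex.I) (κ * √(1 - ‖w‖ ^ 2)) ⊆ Sec w
  ds : ∀ w ∈ ball (0 : ℂ) 1, DifferentiableOn ℂ (Φ w) (Sec w)
  dw : ∀ y : ℝ, DifferentiableOn ℂ (fun w => Φ w ((x0 : ℂ) + y * Complex.I)) (ball 0 1)

lemma sq_pos_of {w : ℂ} (hw : w ∈ ball (0 : ℂ) 1) : 0 < 1 - ‖w‖ ^ 2 := by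
  rw [mem_ball_zero_iff] at hw
  nlinarith [norm_nonneg w]

namespace Fibred

variable {F : Cn n → ℂ} {Φ : ℂ → ℂ → Cn n} {Sec : ℂ → Set ℂ} {x0 κ : ℝ}

lemma line_mem (h : Fibred n F Φ Sec x0 κ) {w : ℂ} (hw : w ∈ ball (0 : ℂ) 1) (y : ℝ) :
    (x0 : ℂ) + y * Complex.I ∈ Sec w := by
  refine h.sub w hw y (mem_ball_self ?_)
  exact mul_pos h.pos (Real.sqrt_pos.2 (sq_pos_of hw))

lemma mem_NB (h : Fibred n F Φ Sec x0 κ) {c : ℂ} (hc : ‖c‖ = 1) :
    (fun z => (1 + c * F z) / (1 - c * F z)) ∈ NB n := by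
  have hlt : ∀ z ∈ ball (0 : Cn n) 1, ‖c * F z‖ < 1 := by
    intro z hz
    rw [norm_mul, hc, one_mul]
    exact mem_ball_zero_iff.1 (h.surj z hz).1
  refine ⟨?_, fun z hz => ?_, ?_⟩
  · simp only [div_eq_mul_inv]
    refine DifferentiableOn.mul ?_ (DifferentiableOn.inv ?_ fun z hz => one_sub_ne (hlt z hz))
    · exact (h.an.const_mul c).const_add 1
    · exact (h.an.const_mul c).const_sub 1
  · simp only
    rw [cay_re]
    have h1 := norm_pos_iff.2 (one_sub_ne (hlt z hz))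
    have h2 : 0 < 1 - ‖c * F z‖ ^ 2 := by
      nlinarith [norm_nonneg (c * F z), hlt z hz]
    positivity
  · simp only
    rw [h.zero]
    simp

/-- points of the line: the values agree -/
lemma line_pts (h : Fibred n F Φ Sec x0 κ) {k : Cn n → ℂ} (hk : DifferentiableOn ℂ k (ball 0 1))
    {C : ℝ} (hC : 0 < C) {c : ℂ} (hc : ‖c‖ = 1)
    (hb : ∀ z ∈ ball (0 : Cn n) 1, |(k z).re| ≤ C * ((1 - ‖F z‖ ^ 2) / ‖1 - c * F z‖ ^ 2))
    {w : ℂ} (hw : w ∈ ball (0 : ℂ) 1) (y : ℝ) :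
    k (Φ w ((x0 : ℂ) + y * Complex.I)) = k (Φ w ((x0 : ℂ) + (0 : ℝ) * Complex.I)) := by
  have hcw : ∀ w ∈ ball (0 : ℂ) 1, ‖c * w‖ < 1 := by
    intro w hw
    rw [norm_mul, hc, one_mul]
    exact mem_ball_zero_iff.1 hw
  set D : ℂ → ℂ := fun w => (1 - c * w) ^ 2 * (k (Φ w ((x0 : ℂ) + y * Complex.I)) -
    k (Φ w ((x0 : ℂ) + (0 : ℝ) * Complex.I))) with hD
  have hDd : DifferentiableOn ℂ D (ball 0 1) := by
    refine DifferentiableOn.mul (by fun_prop) (DifferentiableOn.sub ?_ ?_)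
    · exact hk.comp (h.dw y) fun w hw => (h.mem w hw _ (h.line_mem hw y)).1
    · exact hk.comp (h.dw 0) fun w hw => (h.mem w hw _ (h.line_mem hw 0)).1
  have hDb : ∀ w ∈ ball (0 : ℂ) 1, ‖D w‖ ≤ (8 * C / κ * |y|) * √(1 - ‖w‖ ^ 2) := by
    intro w hw
    have hn2 := norm_pos_iff.2 (one_sub_ne (hcw w hw))
    have hs := sq_pos_of hw
    set s : ℝ := √(1 - ‖w‖ ^ 2) with hsdef
    have hspos : 0 < s := Real.sqrt_pos.2 hs
    have hss : s ^ 2 = 1 - ‖w‖ ^ 2 := Real.sq_sqrt hs.le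
    have hκ := h.pos
    have hR : 0 < κ * s := by positivity
    have hM : 0 < C * (s ^ 2 / ‖1 - c * w‖ ^ 2) := by positivity
    -- the map `t ↦ x₀ + i t`
    have hmap : ∀ y : ℝ, ∀ t ∈ ball (y : ℂ) (κ * s), (x0 : ℂ) + t * Complex.I ∈ Sec w := by
      intro y t ht
      refine h.sub w hw y ?_
      rw [mem_ball, dist_eq_norm] at ht ⊢
      have e1 : (x0 : ℂ) + t * Complex.I - ((x0 : ℂ) + y * Complex.I) =
          (t - y) * Complex.I := by ring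
      rw [e1, norm_mul, Complex.norm_I, mul_one]
      exact ht
    have h7 := diff_bound hR hM (f := fun t => k (Φ w ((x0 : ℂ) + t * Complex.I)))
      (fun y => hk.comp ((h.ds w hw).comp (by fun_prop) (hmap y)) fun t ht =>
        (h.mem w hw _ (hmap y t ht)).1)
      (fun y t ht => by
        have h8 := hb _ (h.mem w hw _ (hmap y t ht)).1
        rwa [(h.mem w hw _ (hmap y t ht)).2, ← hss] at h8) 0 y
    have h9 : ‖D w‖ = ‖1 - c * w‖ ^ 2 * ‖k (Φ w ((x0 : ℂ) + y * Complex.I)) -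
        k (Φ w ((x0 : ℂ) + (0 : ℝ) * Complex.I))‖ := by
      rw [hD]
      simp only [norm_mul, norm_pow]
    rw [h9]
    refine (mul_le_mul_of_nonneg_left h7 (by positivity)).trans (le_of_eq ?_)
    rw [sub_zero, Real.norm_eq_abs]
    field_simp
  have h14 := zero_of_decay hDd hDb w hw
  rw [hD] at h14
  have h15 := (mul_eq_zero.1 h14).resolve_left (pow_ne_zero _ (one_sub_ne (hcw w hw)))
  exact sub_eq_zero.1 h15

/-- the values on a fibre agree -/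
lemma fib (h : Fibred n F Φ Sec x0 κ) {k : Cn n → ℂ} (hk : DifferentiableOn ℂ k (ball 0 1))
    {C : ℝ} (hC : 0 < C) {c : ℂ} (hc : ‖c‖ = 1)
    (hb : ∀ z ∈ ball (0 : Cn n) 1, |(k z).re| ≤ C * ((1 - ‖F z‖ ^ 2) / ‖1 - c * F z‖ ^ 2))
    {w : ℂ} (hw : w ∈ ball (0 : ℂ) 1) {s : ℂ} (hs : s ∈ Sec w) :
    k (Φ w s) = k (Φ w ((x0 : ℂ) + (0 : ℝ) * Complex.I)) := by
  have hd : DifferentiableOn ℂ (fun s => k (Φ w s)) (Sec w) :=
    hk.comp (h.ds w hw) fun s hs => (h.mem w hw s hs).1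
  have ha : AnalyticOnNhd ℂ (fun s => k (Φ w s)) (Sec w) := hd.analyticOnNhd (h.opn w hw)
  have hfr : ∃ᶠ s in 𝓝[≠] ((x0 : ℂ) + (0 : ℝ) * Complex.I),
      k (Φ w s) = k (Φ w ((x0 : ℂ) + (0 : ℝ) * Complex.I)) := by
    have h1 : Tendsto (fun y : ℝ => (x0 : ℂ) + y * Complex.I) (𝓝[≠] 0)
        (𝓝[≠] ((x0 : ℂ) + (0 : ℝ) * Complex.I)) := by
      refine tendsto_nhdsWithin_of_tendsto_nhds_of_eventually_within _ ?_ ?_
      · have h2 : Continuous fun y : ℝ => (x0 : ℂ) + y * Complex.I := by fun_prop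
        exact (h2.tendsto 0).mono_left nhdsWithin_le_nhds
      · filter_upwards [self_mem_nhdsWithin] with x hx
        rw [mem_compl_iff, mem_singleton_iff] at hx ⊢
        intro h3
        apply hx
        have h4 := congrArg Complex.im h3
        simpa using h4
    exact h1.frequently (Eventually.frequently (Eventually.of_forall fun y =>
      h.line_pts hk hC hc hb hw y))
  exact ha.eqOn_of_preconnected_of_frequently_eq
    (g := fun _ => k (Φ w ((x0 : ℂ) + (0 : ℝ) * Complex.I))) analyticOnNhd_const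
    (h.conn w hw) (h.line_mem hw 0) hfr hs

/-- **extremality** -/
theorem extreme (h : Fibred n F Φ Sec x0 κ) {c : ℂ} (hc : ‖c‖ = 1) :
    IsExtremePoint n (fun z => (1 + c * F z) / (1 - c * F z)) := by
  refine ⟨h.mem_NB hc, ?_⟩
  intro g₁ hg₁ g₂ hg₂ t ht0 ht1 heq
  have hc0 : c ≠ 0 := by
    intro h
    rw [h, norm_zero] at hc
    exact zero_ne_one hc
  set k : Cn n → ℂ := fun z => g₁ z - g₂ z with hkdef
  set C : ℝ := 1 / t + 1 / (1 - t) with hCdef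
  have ht1' : 0 < 1 - t := by linarith
  have hC : 0 < C := by positivity
  have hk : DifferentiableOn ℂ k (ball 0 1) := hg₁.1.sub hg₂.1
  have hb : ∀ z ∈ ball (0 : Cn n) 1,
      |(k z).re| ≤ C * ((1 - ‖F z‖ ^ 2) / ‖1 - c * F z‖ ^ 2) := by
    intro z hz
    have h1 := hg₁.2.1 z hz
    have h2 := hg₂.2.1 z hz
    have h30 : (1 - ‖F z‖ ^ 2) / ‖1 - c * F z‖ ^ 2 = ((1 + c * F z) / (1 - c * F z)).re := by
      rw [cay_re, norm_mul, hc, one_mul]
    have h3 : (1 - ‖F z‖ ^ 2) / ‖1 - c * F z‖ ^ 2 = t * (g₁ z).re + (1 - t) * (g₂ z).re := by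
      have h31 := heq z hz
      simp only at h31
      rw [h30, h31]
      simp
    have h4 : (g₁ z).re ≤ 1 / t * ((1 - ‖F z‖ ^ 2) / ‖1 - c * F z‖ ^ 2) := by
      rw [h3, div_mul_eq_mul_div, one_mul, le_div_iff₀ ht0]
      nlinarith [mul_pos ht1' h2]
    have h5 : (g₂ z).re ≤ 1 / (1 - t) * ((1 - ‖F z‖ ^ 2) / ‖1 - c * F z‖ ^ 2) := by
      rw [h3, div_mul_eq_mul_div, one_mul, le_div_iff₀ ht1']
      nlinarith [mul_pos ht0 h1]
    have h6 : (k z).re = (g₁ z).re - (g₂ z).re := by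
      rw [hkdef]
      simp
    have h7 : C * ((1 - ‖F z‖ ^ 2) / ‖1 - c * F z‖ ^ 2) =
        1 / t * ((1 - ‖F z‖ ^ 2) / ‖1 - c * F z‖ ^ 2) +
          1 / (1 - t) * ((1 - ‖F z‖ ^ 2) / ‖1 - c * F z‖ ^ 2) := by
      rw [hCdef]
      ring
    rw [h6, h7, abs_le]
    constructor <;> linarith
  have hdiv : ∀ w ∈ ball (0 : ℂ) 1, w / c ∈ ball (0 : ℂ) 1 := by
    intro w hw
    rw [mem_ball_zero_iff, norm_div, hc, div_one]
    exact mem_ball_zero_iff.1 hw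
  have hmul : ∀ w ∈ ball (0 : ℂ) 1, c * w ∈ ball (0 : ℂ) 1 := by
    intro w hw
    rw [mem_ball_zero_iff, norm_mul, hc, one_mul]
    exact mem_ball_zero_iff.1 hw
  set s0 : ℂ := (x0 : ℂ) + (0 : ℝ) * Complex.I with hs0
  have hK : DifferentiableOn ℂ (fun w => k (Φ (w / c) s0)) (ball 0 1) := by
    have h1 : DifferentiableOn ℂ (fun w => k (Φ w s0)) (ball 0 1) :=
      hk.comp (h.dw 0) fun w hw => (h.mem w hw _ (h.line_mem hw 0)).1
    exact h1.comp (g := fun w => k (Φ w s0)) (f := fun w : ℂ => w / c)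
      (s := ball (0 : ℂ) 1) (by fun_prop) hdiv
  have h0b : (0 : Cn n) ∈ ball (0 : Cn n) 1 := mem_ball_self one_pos
  have hK0 : k (Φ (0 / c) s0) = 0 := by
    rw [zero_div]
    obtain ⟨h1, s, hs, h2⟩ := h.surj 0 h0b
    rw [h.zero] at h1 hs h2
    have h3 := h.fib hk hC hc hb h1 hs
    rw [h2] at h3
    rw [hs0, ← h3, hkdef]
    change g₁ 0 - g₂ 0 = 0
    rw [hg₁.2.2, hg₂.2.2, sub_self]
  have hKb : ∀ w ∈ ball (0 : ℂ) 1,
      |(k (Φ (w / c) s0)).re| ≤ C * (1 - ‖w‖ ^ 2) / ‖1 - w‖ ^ 2 := by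
    intro w hw
    have h2 := h.mem _ (hdiv w hw) _ (h.line_mem (hdiv w hw) 0)
    have h1 := hb _ h2.1
    rw [h2.2, norm_div, hc, div_one, mul_div_cancel₀ w hc0] at h1
    rwa [mul_div_assoc]
  have hKz := disc_zero hK hK0 hKb
  intro z hz
  obtain ⟨h1, s, hs, h2⟩ := h.surj z hz
  have h3 := h.fib hk hC hc hb h1 hs
  have h4 := hKz (c * F z) (hmul _ h1)
  rw [mul_div_cancel_left₀ _ hc0] at h4
  rw [← hs0, h4, h2] at h3
  exact sub_eq_zero.1 h3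

end Fibred

end

end Pool.Agent.Lib.MP_6ff8d9_an.N2.H50X
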