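import Pool.Agent.Lib.MP_6ff8d9_an_h69.RowsU
import Pool.Agent.Lib.MP_6ff8d9_an_h20r.Surj

/-!
# MP_6ff8d9 IRREDUCIBLE rows, I5: an irreducible function takes all the values of the disc
-/

open Metric Filter Topology
open scoped ComplexConjugate

namespace Pool.Agent.Lib.MP_6ff8d9_an.P69

open Pool.Agent.Lib.MP_6ff8d9_an Pool.Agent.Lib.MP_6ff8d9_an.H11

noncomputable section

variable {n : ℕ}

namespace H50I

/-- the derivative of a function of `w` -/
lemma fderiv_fun_of {F w : Cn n → ℂ} {G : ℂ → ℂ} {z : Cn n} (h : F =ᶠ[𝓝 z] fun y => G (w y))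
    (hG : DifferentiableAt ℂ G (w z)) (hw : DifferentiableAt ℂ w z) (v : Cn n) :
    fderiv ℂ F z v = deriv G (w z) * fderiv ℂ w z v := by
  have h1 : HasFDerivAt (fun y => G (w y)) (deriv G (w z) • fderiv ℂ w z) z :=
    hG.hasDerivAt.comp_hasFDerivAt z hw.hasFDerivAt
  rw [h.fderiv_eq, h1.fderiv]
  simp

/-- two functions of `w` are dependent -/
lemma dep_of {F k w : Cn n → ℂ} {G N : ℂ → ℂ} (hw : DifferentiableOn ℂ w (ball 0 1))
    (hF : ∀ z ∈ ball (0 : Cn n) 1, F z = G (w z)) (hk : ∀ z ∈ ball (0 : Cn n) 1, k z = N (w z))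
    (hG : ∀ z ∈ ball (0 : Cn n) 1, DifferentiableAt ℂ G (w z))
    (hN : ∀ z ∈ ball (0 : Cn n) 1, DifferentiableAt ℂ N (w z)) : Dep F k := by
  intro z hz v v'
  have hwz := hw.differentiableAt (isOpen_ball.mem_nhds hz)
  have h1 : F =ᶠ[𝓝 z] fun y => G (w y) := by
    filter_upwards [isOpen_ball.mem_nhds hz] with y hy using hF y hy
  have h2 : k =ᶠ[𝓝 z] fun y => N (w y) := by
    filter_upwards [isOpen_ball.mem_nhds hz] with y hy using hk y hy
  rw [fderiv_fun_of h1 (hG z hz) hwz, fderiv_fun_of h1 (hG z hz) hwz,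
    fderiv_fun_of h2 (hN z hz) hwz, fderiv_fun_of h2 (hN z hz) hwz]
  ring

lemma ne_one_add {x y : ℂ} (hx : ‖x‖ < 1) (hy : ‖y‖ < 1) : 1 + conj y * x ≠ 0 := by
  have h := surj_den (w0 := -y) (w := x) (by rwa [norm_neg]) hx
  rwa [map_neg, neg_mul, sub_neg_eq_add] at h

/-- pseudo-hyperbolic distance -/
lemma pseudo {x y : ℂ} (hx : ‖x‖ < 1) (hy : ‖y‖ < 1) : ‖(x + y) / (1 + conj y * x)‖ < 1 := by
  rw [norm_div, div_lt_one (norm_pos_iff.2 (ne_one_add hx hy)),
    ← sq_lt_sq₀ (norm_nonneg _) (norm_nonneg _), ← Complex.normSq_eq_norm_sq,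
    ← Complex.normSq_eq_norm_sq]
  have h1 : Complex.normSq (1 + conj y * x) - Complex.normSq (x + y) =
      (1 - Complex.normSq x) * (1 - Complex.normSq y) := by
    simp only [Complex.normSq_apply, Complex.add_re, Complex.add_im, Complex.mul_re,
      Complex.mul_im, Complex.conj_re, Complex.conj_im, Complex.one_re, Complex.one_im]
    ring
  have h2 : 0 < 1 - Complex.normSq x := by
    rw [Complex.normSq_eq_norm_sq]
    nlinarith [norm_nonneg x]
  have h3 : 0 < 1 - Complex.normSq y := by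
    rw [Complex.normSq_eq_norm_sq]
    nlinarith [norm_nonneg y]
  have h4 := mul_pos h2 h3
  linarith

lemma pseudo' {x y : ℂ} (hx : ‖x‖ < 1) (hy : ‖y‖ < 1) : ‖(x - y) / (1 - conj y * x)‖ < 1 := by
  have h := pseudo (y := -y) hx (by rwa [norm_neg])
  rwa [map_neg, neg_mul, ← sub_eq_add_neg, ← sub_eq_add_neg] at h

end H50I

open H50I in
/-- a function which dominates all the functions of its family is onto -/
theorem onto_core {F : Cn n → ℂ} (hF : Hol n F) {z1 : Cn n} (h0b : z1 ∈ ball (0 : Cn n) 1)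
    (hF0 : F z1 = 0) (hne : ∃ z ∈ ball (0 : Cn n) 1, F z ≠ 0)
    (hC : ∀ φ, Fam n F z1 φ → ∀ z ∈ ball (0 : Cn n) 1, ‖φ z‖ ≤ ‖F z‖) :
    ∀ w0 ∈ ball (0 : ℂ) 1, ∃ z ∈ ball (0 : Cn n) 1, F z = w0 := by
  intro w0 hw0
  by_contra hno
  have hno' : ∀ z ∈ ball (0 : Cn n) 1, F z ≠ w0 := fun z hz h => hno ⟨z, hz, h⟩
  have hw0' : ‖w0‖ < 1 := mem_ball_zero_iff.1 hw0
  set M : Cn n → ℂ := fun z => (F z - w0) / (1 - conj w0 * F z) with hM
  have hMd : DifferentiableOn ℂ M (ball 0 1) := by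
    have h2 : DifferentiableOn ℂ (fun z => 1 - conj w0 * F z) (ball 0 1) :=
      (hF.an.const_mul (conj w0)).const_sub 1
    simp only [hM, div_eq_mul_inv]
    exact (hF.an.sub_const w0).fun_mul (h2.fun_inv fun z hz => surj_den hw0' (hF.lt z hz))
  have hM0 : ∀ z ∈ ball (0 : Cn n) 1, M z ≠ 0 := fun z hz =>
    div_ne_zero (sub_ne_zero.2 (hno' z hz)) (surj_den hw0' (hF.lt z hz))
  obtain ⟨c, k, hk, hMk⟩ := exists_exp hMd hM0
  obtain ⟨d, hd⟩ : ∃ d : ℂ, d ^ 2 = c := IsAlgClosed.exists_pow_nat_eq c two_pos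
  obtain ⟨w1, hw1d, hw1M⟩ : ∃ w1 : Cn n → ℂ, DifferentiableOn ℂ w1 (ball 0 1) ∧
      ∀ z ∈ ball (0 : Cn n) 1, w1 z ^ 2 = M z := by
    refine ⟨fun z => d * Complex.exp (k z * (1 / 2)), ((hk.mul_const (1 / 2)).cexp).const_mul d,
      fun z hz => ?_⟩
    rw [hMk z hz, ← hd]
    simp only
    rw [mul_pow, ← Complex.exp_nat_mul]
    congr 2
    push_cast
    ring
  have hw1n : ∀ z ∈ ball (0 : Cn n) 1, ‖w1 z‖ < 1 := by
    intro z hz
    have h1 : ‖w1 z‖ ^ 2 < 1 := by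
      rw [← norm_pow, hw1M z hz]
      exact pseudo' (hF.lt z hz) hw0'
    nlinarith [norm_nonneg (w1 z)]
  obtain ⟨a, ha⟩ : ∃ a : ℂ, a = w1 z1 := ⟨_, rfl⟩
  have han : ‖a‖ < 1 := by
    rw [ha]
    exact hw1n z1 h0b
  have ha2 : w0 = -a ^ 2 := by
    have h1 := hw1M z1 h0b
    simp only [hM, hF0, mul_zero, sub_zero, zero_sub, div_one] at h1
    rw [ha, h1, neg_neg]
  -- `F` as a function of `w1`
  have hFw : ∀ z ∈ ball (0 : Cn n) 1, F z = (w1 z - a) / (1 - conj a * w1 z) *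
      ((w1 z + a) / (1 + conj a * w1 z)) := by
    intro z hz
    have h1 := hw1M z hz
    have hd1 := surj_den hw0' (hF.lt z hz)
    have hd2 := surj_den han (hw1n z hz)
    have hd3 := ne_one_add (hw1n z hz) han
    simp only [hM] at h1
    rw [eq_div_iff hd1, ha2] at h1
    simp only [map_neg, map_pow] at h1
    rw [div_mul_div_comm, eq_div_iff (mul_ne_zero hd2 hd3)]
    linear_combination -h1
  set φ : Cn n → ℂ := fun z => (w1 z - a) / (1 - conj a * w1 z) with hφ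
  have hφd : DifferentiableOn ℂ φ (ball 0 1) := by
    have h2 : DifferentiableOn ℂ (fun z => 1 - conj a * w1 z) (ball 0 1) :=
      (hw1d.const_mul (conj a)).const_sub 1
    simp only [hφ, div_eq_mul_inv]
    exact (hw1d.sub_const a).fun_mul (h2.fun_inv fun z hz => surj_den han (hw1n z hz))
  have hdep : Dep F φ := by
    refine dep_of (G := fun s => (s - a) / (1 - conj a * s) * ((s + a) / (1 + conj a * s)))
      (N := fun s => (s - a) / (1 - conj a * s)) hw1d hFw (fun z _ => rfl) (fun z hz => ?_)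
      (fun z hz => ?_)
    · have hd2 := surj_den han (hw1n z hz)
      have hd3 := ne_one_add (hw1n z hz) han
      have e1 : DifferentiableAt ℂ (fun s : ℂ => (s - a) / (1 - conj a * s)) (w1 z) :=
        DifferentiableAt.div (by fun_prop) (by fun_prop) hd2
      have e2 : DifferentiableAt ℂ (fun s : ℂ => (s + a) / (1 + conj a * s)) (w1 z) :=
        DifferentiableAt.div (by fun_prop) (by fun_prop) hd3
      exact e1.mul e2
    · exact DifferentiableAt.div (by fun_prop) (by fun_prop) (surj_den han (hw1n z hz))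
  have hφ0 : φ z1 = 0 := by
    simp only [hφ]
    rw [← ha, sub_self, zero_div]
  have hcl := hC φ ⟨hφd, hdep, fun z hz => (pseudo' (hw1n z hz) han).le, hφ0⟩
  obtain ⟨z, hz, hz0⟩ := hne
  have h1 := hcl z hz
  have h2 := hFw z hz
  have h3 : ‖F z‖ = ‖φ z‖ * ‖(w1 z + a) / (1 + conj a * w1 z)‖ := by
    rw [h2, norm_mul]
  have h4 := pseudo (hw1n z hz) han
  have h5 : 0 < ‖F z‖ := norm_pos_iff.2 hz0
  have h6 : 0 < ‖φ z‖ := by
    rcases (norm_nonneg (φ z)).eq_or_lt with h | h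
    · rw [← h, zero_mul] at h3
      exact absurd h3 h5.ne'
    · exact h
  have h7 : ‖F z‖ < ‖φ z‖ := by
    rw [h3]
    exact mul_lt_of_lt_one_right h6 h4
  exact absurd h1 (not_le.2 h7)

/-- row I5 -/
theorem irrsurj (hC : CLAIM1) : IRRSURJ := by
  intro n F hF hF0 hne hI
  exact onto_core hF (mem_ball_self one_pos) hF0 hne fun φ hφ =>
    hC n F φ hF hF0 hne hI hφ.an hφ.dep hφ.le hφ.zero

/-- row U2 -/
theorem wonto : WONTO := by
  intro n W e z1 hW hz1 hW1 hmax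
  refine onto_core hW hz1.1 hW1 ?_ hmax
  by_contra hno
  have h1 : W =ᶠ[𝓝 z1] fun _ => 0 := by
    filter_upwards [isOpen_ball.mem_nhds hz1.1] with z hz
    by_contra h
    exact hno ⟨z, hz, h⟩
  refine hz1.2 ?_
  rw [h1.fderiv_eq]
  simp

end

end Pool.Agent.Lib.MP_6ff8d9_an.P69
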