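import Pool.Agent.Lib.MP_6ff8d9_an_h50.Fib

/-!
# MP_6ff8d9: charts of the ball of `ℂ²` in which it is a Hartogs domain over a half plane
-/

open Metric Set Filter Topology
open scoped ComplexConjugate

namespace Pool.Agent.Lib.MP_6ff8d9_an.N2.H50X

open Pool.Agent.Lib.MP_6ff8d9_an Pool.Agent.Lib.MP_6ff8d9_an.Rat.H82

noncomputable section

/-! ## Sections -/

/-- the section of the Hartogs domain with profile `ρ` on the interval `I` -/
def SecS (I : Set ℝ) (ρ : ℝ → ℝ) (w : ℂ) : Set ℂ := {s | s.re ∈ I ∧ ‖w‖ ^ 2 < ρ s.re}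

lemma SecS_eq (I : Set ℝ) (ρ : ℝ → ℝ) (w : ℂ) :
    SecS I ρ w = Complex.reLm ⁻¹' {x | x ∈ I ∧ ‖w‖ ^ 2 < ρ x} := rfl

lemma SecS_open {I : Set ℝ} {ρ : ℝ → ℝ} (hI : IsOpen I) (hρ : Continuous ρ) (w : ℂ) :
    IsOpen (SecS I ρ w) := by
  have h1 : IsOpen {x | x ∈ I ∧ ‖w‖ ^ 2 < ρ x} :=
    hI.inter (isOpen_lt continuous_const hρ)
  exact h1.preimage Complex.continuous_re

lemma SecS_conn {I : Set ℝ} {ρ : ℝ → ℝ} {x0 : ℝ} (hI : I.OrdConnected)
    (h1 : MonotoneOn ρ (I ∩ Iic x0)) (h2 : AntitoneOn ρ (I ∩ Ici x0)) (w : ℂ) :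
    IsPreconnected (SecS I ρ w) := by
  have hc : Convex ℝ {x | x ∈ I ∧ ‖w‖ ^ 2 < ρ x} := by
    rw [convex_iff_ordConnected]
    refine ⟨fun a ha b hb x hx => ⟨hI.out ha.1 hb.1 hx, ?_⟩⟩
    have hxI := hI.out ha.1 hb.1 hx
    rcases le_total x x0 with h | h
    · exact ha.2.trans_le (h1 ⟨ha.1, hx.1.trans h⟩ ⟨hxI, h⟩ hx.1)
    · exact hb.2.trans_le (h2 ⟨hxI, h⟩ ⟨hb.1, h.trans hx.2⟩ hx.2)
  rw [SecS_eq]
  exact (hc.linear_preimage Complex.reLm).isPreconnected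

lemma SecS_ball {I : Set ℝ} {ρ : ℝ → ℝ} {x0 A h0 κ : ℝ} (hA : 0 ≤ A) (hκ : 0 < κ) (hκ0 : κ ≤ h0)
    (hκA : A * κ ^ 2 ≤ 1) (hI : ∀ h, |h| < h0 → x0 + h ∈ I)
    (hρ : ∀ h, |h| < h0 → 1 - A * h ^ 2 ≤ ρ (x0 + h)) {w : ℂ} (hw : w ∈ ball (0 : ℂ) 1) (y : ℝ) :
    ball ((x0 : ℂ) + y * Complex.I) (κ * √(1 - ‖w‖ ^ 2)) ⊆ SecS I ρ w := by
  intro s hs
  have hp := sq_pos_of hw
  rw [mem_ball, dist_eq_norm] at hs
  have h1 : |s.re - x0| ≤ ‖s - ((x0 : ℂ) + y * Complex.I)‖ := by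
    have h2 := Complex.abs_re_le_norm (s - ((x0 : ℂ) + y * Complex.I))
    simpa using h2
  have h2 : |s.re - x0| < κ * √(1 - ‖w‖ ^ 2) := h1.trans_lt hs
  have h3 : √(1 - ‖w‖ ^ 2) ≤ 1 := by
    rw [Real.sqrt_le_one]
    have := sq_nonneg ‖w‖
    linarith
  have h4 : |s.re - x0| < h0 := by
    refine h2.trans_le (le_trans ?_ hκ0)
    exact mul_le_of_le_one_right hκ.le h3
  have h5 := hI _ h4
  have h6 := hρ _ h4
  rw [add_sub_cancel] at h5 h6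
  refine ⟨h5, ?_⟩
  have h7 : (s.re - x0) ^ 2 < κ ^ 2 * (1 - ‖w‖ ^ 2) := by
    have h8 : |s.re - x0| ^ 2 < (κ * √(1 - ‖w‖ ^ 2)) ^ 2 :=
      pow_lt_pow_left₀ h2 (abs_nonneg _) two_ne_zero
    rwa [sq_abs, mul_pow, Real.sq_sqrt hp.le] at h8
  have h9 : A * (s.re - x0) ^ 2 < 1 - ‖w‖ ^ 2 := by
    rcases hA.eq_or_lt with hA0 | hA0
    · rw [← hA0, zero_mul]
      exact hp
    · have h10 := mul_lt_mul_of_pos_left h7 hA0
      have h11 : A * (κ ^ 2 * (1 - ‖w‖ ^ 2)) ≤ 1 - ‖w‖ ^ 2 := by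
        rw [← mul_assoc]
        exact mul_le_of_le_one_left hp.le hκA
      linarith
  linarith

/-! ## The half plane model -/

/-- the chart from the Siegel domain `‖v‖² < Re u` to the ball -/
def Pu (ε u v : ℂ) : Cn 2 := WithLp.toLp 2 ![(u - 1) / (ε * (u + 1)), 2 * v / (u + 1)]

lemma Pu0 (ε u v : ℂ) : Pu ε u v 0 = (u - 1) / (ε * (u + 1)) := rfl

lemma Pu1 (ε u v : ℂ) : Pu ε u v 1 = 2 * v / (u + 1) := rfl

/-- the coordinate `u` -/
def cu (ε : ℂ) (z : Cn 2) : ℂ := (1 + ε * z 0) / (1 - ε * z 0)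

/-- the coordinate `v` -/
def cv (ε : ℂ) (z : Cn 2) : ℂ := z 1 / (1 - ε * z 0)

lemma re_pos_of {u v : ℂ} (h : ‖v‖ ^ 2 < u.re) : 0 < u.re := lt_of_le_of_lt (by positivity) h

lemma eps_ne {ε : ℂ} (hε : ‖ε‖ = 1) : ε ≠ 0 := by
  intro h
  rw [h, norm_zero] at hε
  exact zero_ne_one hε

lemma Pu_mem {ε u v : ℂ} (hε : ‖ε‖ = 1) (h : ‖v‖ ^ 2 < u.re) : Pu ε u v ∈ ball (0 : Cn 2) 1 := by
  rw [mem_ball_zero_iff, EuclideanSpace.norm_eq, Real.sqrt_lt' one_pos, one_pow, Fin.sum_univ_two,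
    Pu0, Pu1, norm_div, norm_div, norm_mul, hε, one_mul, div_pow, div_pow, ← add_div]
  have hu := u1_ne (re_pos_of h)
  have hpos : 0 < ‖u + 1‖ ^ 2 := by
    have := norm_pos_iff.2 hu
    positivity
  rw [div_lt_one hpos, norm_mul, Complex.norm_two, mul_pow]
  have e1 : ‖u - 1‖ ^ 2 = (u.re - 1) ^ 2 + u.im ^ 2 := by
    rw [← Complex.normSq_eq_norm_sq, Complex.normSq_apply]
    simp only [Complex.sub_re, Complex.sub_im, Complex.one_re, Complex.one_im]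
    ring
  have e2 : ‖u + 1‖ ^ 2 = (u.re + 1) ^ 2 + u.im ^ 2 := by
    rw [← Complex.normSq_eq_norm_sq, Complex.normSq_apply]
    simp only [Complex.add_re, Complex.add_im, Complex.one_re, Complex.one_im]
    ring
  rw [e1, e2]
  nlinarith

lemma eps_lt {ε : ℂ} (hε : ‖ε‖ = 1) {z : Cn 2} (hz : z ∈ ball (0 : Cn 2) 1) : ‖ε * z 0‖ < 1 := by
  rw [norm_mul, hε, one_mul]
  rw [mem_ball_zero_iff] at hz
  exact (PiLp.norm_apply_le z 0).trans_lt hz

/-- in the chart the ball is the Siegel domain -/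
lemma chart_lt {ε : ℂ} (hε : ‖ε‖ = 1) {z : Cn 2} (hz : z ∈ ball (0 : Cn 2) 1) :
    ‖cv ε z‖ ^ 2 < (cu ε z).re := by
  have h0 := eps_lt hε hz
  have hne := one_sub_ne h0
  rw [mem_ball_zero_iff] at hz
  have h1 : ‖z 0‖ ^ 2 + ‖z 1‖ ^ 2 < 1 := by
    rw [← norm_sq_Cn2]
    nlinarith [norm_nonneg z]
  have hpos : 0 < ‖1 - ε * z 0‖ ^ 2 := by
    have := norm_pos_iff.2 hne
    positivity
  unfold cu cv
  rw [cay_re, norm_div, div_pow, norm_mul, hε, one_mul]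
  gcongr
  linarith

lemma chart_inv {ε : ℂ} (hε : ‖ε‖ = 1) {z : Cn 2} (hz : z ∈ ball (0 : Cn 2) 1) :
    Pu ε (cu ε z) (cv ε z) = z := by
  have h0 := eps_lt hε hz
  have hne := one_sub_ne h0
  have hε0 := eps_ne hε
  have e1 : cu ε z + 1 = 2 / (1 - ε * z 0) := by
    unfold cu
    field_simp
    ring
  have e2 : cu ε z - 1 = 2 * (ε * z 0) / (1 - ε * z 0) := by
    unfold cu
    field_simp
    ring
  ext i
  fin_cases i
  · change Pu _ _ _ 0 = z 0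
    rw [Pu0, e1, e2]
    field_simp
  · change Pu _ _ _ 1 = z 1
    rw [Pu1, e1]
    unfold cv
    field_simp

lemma cu_Pu {ε u v : ℂ} (hε : ‖ε‖ = 1) (h : 0 < u.re) : cu ε (Pu ε u v) = u := by
  have hu := u1_ne h
  have hε0 := eps_ne hε
  unfold cu
  rw [Pu0]
  have e1 : ε * ((u - 1) / (ε * (u + 1))) = (u - 1) / (u + 1) := by
    field_simp
  rw [e1]
  have e2 : 1 + (u - 1) / (u + 1) = 2 * u / (u + 1) := by
    field_simp
    ring
  have e3 : 1 - (u - 1) / (u + 1) = 2 / (u + 1) := by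
    field_simp
    ring
  rw [e2, e3]
  field_simp

lemma cv_Pu {ε u v : ℂ} (hε : ‖ε‖ = 1) (h : 0 < u.re) : cv ε (Pu ε u v) = v := by
  have hu := u1_ne h
  have hε0 := eps_ne hε
  unfold cv
  rw [Pu0, Pu1]
  have e1 : ε * ((u - 1) / (ε * (u + 1))) = (u - 1) / (u + 1) := by
    field_simp
  rw [e1]
  have e3 : 1 - (u - 1) / (u + 1) = 2 / (u + 1) := by
    field_simp
    ring
  rw [e3]
  field_simp

lemma cu_diff {ε : ℂ} (hε : ‖ε‖ = 1) : DifferentiableOn ℂ (cu ε) (ball (0 : Cn 2) 1) := by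
  have h0 : Differentiable ℂ fun z : Cn 2 => z 0 := by fun_prop
  unfold cu
  simp only [div_eq_mul_inv]
  refine DifferentiableOn.mul ?_ (DifferentiableOn.inv ?_ fun z hz => one_sub_ne (eps_lt hε hz))
  · exact Differentiable.differentiableOn (by fun_prop)
  · exact Differentiable.differentiableOn (by fun_prop)

lemma cv_diff {ε : ℂ} (hε : ‖ε‖ = 1) : DifferentiableOn ℂ (cv ε) (ball (0 : Cn 2) 1) := by
  have h0 : Differentiable ℂ fun z : Cn 2 => z 0 := by fun_prop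
  have h1 : Differentiable ℂ fun z : Cn 2 => z 1 := by fun_prop
  unfold cv
  simp only [div_eq_mul_inv]
  refine DifferentiableOn.mul ?_ (DifferentiableOn.inv ?_ fun z hz => one_sub_ne (eps_lt hε hz))
  · exact Differentiable.differentiableOn (by fun_prop)
  · exact Differentiable.differentiableOn (by fun_prop)

/-- holomorphy of the chart along holomorphic `u`, `v` -/
lemma Pu_diff {ε : ℂ} (hε : ‖ε‖ = 1) {U V : ℂ → ℂ} {s : Set ℂ} (hU : DifferentiableOn ℂ U s)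
    (hV : DifferentiableOn ℂ V s) (h : ∀ t ∈ s, 0 < (U t).re) :
    DifferentiableOn ℂ (fun t => Pu ε (U t) (V t)) s := by
  have hε0 := eps_ne hε
  rw [differentiableOn_euclidean]
  intro i
  fin_cases i
  · change DifferentiableOn ℂ (fun t => (U t - 1) / (ε * (U t + 1))) s
    exact DifferentiableOn.div (by fun_prop) (by fun_prop) fun t ht =>
      mul_ne_zero hε0 (u1_ne (h t ht))
  · change DifferentiableOn ℂ (fun t => 2 * V t / (U t + 1)) s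
    exact DifferentiableOn.div (by fun_prop) (by fun_prop) fun t ht => u1_ne (h t ht)

end

end Pool.Agent.Lib.MP_6ff8d9_an.N2.H50X
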