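import Pool.Agent.Lib.MP_6ff8d9_an_h50.SymChx
import Pool.Agent.Lib.MP_6ff8d9_an_h50.Strip

/-!
# MP_6ff8d9 symmetric rows, S4: the parabolic chart
-/

open Metric Set Filter Topology
open scoped ComplexConjugate

namespace Pool.Agent.Lib.MP_6ff8d9_an.N2

open Pool.Agent.Lib.MP_6ff8d9_an Pool.Agent.Lib.MP_6ff8d9_an.H22

noncomputable section

namespace H50S

open H50X

/-- ord-connectedness of the superlevel sets of a unimodal function -/
lemma ordConn_of {I : Set ℝ} {ρ : ℝ → ℝ} {x0 : ℝ} (hI : I.OrdConnected)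
    (h1 : MonotoneOn ρ (I ∩ Iic x0)) (h2 : AntitoneOn ρ (I ∩ Ici x0)) (t : ℝ) :
    {x | x ∈ I ∧ t < ρ x}.OrdConnected := by
  refine ⟨fun a ha b hb x hx => ⟨hI.out ha.1 hb.1 hx, ?_⟩⟩
  have hxI := hI.out ha.1 hb.1 hx
  rcases le_total x x0 with h | h
  · exact ha.2.trans_le (h1 ⟨ha.1, hx.1.trans h⟩ ⟨hxI, h⟩ hx.1)
  · exact hb.2.trans_le (h2 ⟨hxI, h⟩ ⟨hb.1, h.trans hx.2⟩ hx.2)

lemma cu_one (z : Fin 2 → ℂ) : cu 1 (WithLp.toLp 2 z) = (1 + z 0) / (1 - z 0) := by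
  unfold cu
  change (1 + 1 * z 0) / (1 - 1 * z 0) = _
  rw [one_mul]

lemma cv_one (z : Fin 2 → ℂ) : cv 1 (WithLp.toLp 2 z) = z 1 / (1 - z 0) := by
  unfold cv
  change z 1 / (1 - 1 * z 0) = _
  rw [one_mul]

lemma Pu_one (u v : ℂ) : (fun i => Pu 1 u v i) = ![(u - 1) / (u + 1), 2 * v / (u + 1)] := by
  funext i
  fin_cases i
  · change Pu 1 u v 0 = _
    rw [Pu0, one_mul]
    rfl
  · rfl

/-- the profile -/
def ρP (m y : ℝ) : ℝ := 2 * m * Real.exp 1 * (y * Real.exp (-(2 * m * y)))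

lemma ρP_deriv (m y : ℝ) : HasDerivAt (ρP m)
    (2 * m * Real.exp 1 * ((1 - 2 * m * y) * Real.exp (-(2 * m * y)))) y := by
  have h1 : HasDerivAt (fun y : ℝ => -(2 * m * y)) (-(2 * m)) y := by
    have h := ((hasDerivAt_id y).const_mul (-(2 * m)))
    simp only [id, mul_one, neg_mul] at h
    exact h
  have h3 := ((hasDerivAt_id y).mul h1.exp).const_mul (2 * m * Real.exp 1)
  refine h3.congr_deriv ?_
  simp only [id]
  ring

lemma ρP_cont (m : ℝ) : Continuous (ρP m) := by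
  unfold ρP
  fun_prop

lemma ρP_mono {m : ℝ} (hm : 0 < m) : MonotoneOn (ρP m) (Ioi 0 ∩ Iic (1 / (2 * m))) := by
  refine monotoneOn_of_deriv_nonneg ?_ (ρP_cont m).continuousOn
    (fun x _ => (ρP_deriv m x).differentiableAt.differentiableWithinAt) ?_
  · exact (convex_Ioi 0).inter (convex_Iic _)
  · intro x hx
    have hx' := interior_subset hx
    rw [(ρP_deriv m x).deriv]
    have h1 : x ≤ 1 / (2 * m) := hx'.2
    rw [le_div_iff₀ (by positivity)] at h1
    have h2 : 0 ≤ 1 - 2 * m * x := by linarith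
    positivity

lemma ρP_anti {m : ℝ} (hm : 0 < m) : AntitoneOn (ρP m) (Ioi 0 ∩ Ici (1 / (2 * m))) := by
  refine antitoneOn_of_deriv_nonpos ?_ (ρP_cont m).continuousOn
    (fun x _ => (ρP_deriv m x).differentiableAt.differentiableWithinAt) ?_
  · exact (convex_Ioi 0).inter (convex_Ici _)
  · intro x hx
    have hx' := interior_subset hx
    rw [(ρP_deriv m x).deriv]
    have h1 : 1 / (2 * m) ≤ x := hx'.2
    rw [div_le_iff₀ (by positivity)] at h1
    have h2 : 1 - 2 * m * x ≤ 0 := by linarith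
    have h3 : 0 ≤ 2 * m * Real.exp 1 := by positivity
    exact mul_nonpos_of_nonneg_of_nonpos h3
      (mul_nonpos_of_nonpos_of_nonneg h2 (Real.exp_pos _).le)

lemma ρP_le (m y : ℝ) : ρP m y ≤ 1 := by
  unfold ρP
  have h1 := Real.add_one_le_exp (2 * m * y - 1)
  have h2 : 2 * m * y ≤ Real.exp (2 * m * y - 1) := by linarith
  have h3 : Real.exp (2 * m * y - 1) * (Real.exp 1 * Real.exp (-(2 * m * y))) = 1 := by
    rw [← Real.exp_add, ← Real.exp_add]
    have e : 2 * m * y - 1 + (1 + -(2 * m * y)) = 0 := by ring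
    rw [e, Real.exp_zero]
  have h4 : 0 ≤ Real.exp 1 * Real.exp (-(2 * m * y)) := by positivity
  calc 2 * m * Real.exp 1 * (y * Real.exp (-(2 * m * y)))
      = 2 * m * y * (Real.exp 1 * Real.exp (-(2 * m * y))) := by ring
    _ ≤ Real.exp (2 * m * y - 1) * (Real.exp 1 * Real.exp (-(2 * m * y))) :=
        mul_le_mul_of_nonneg_right h2 h4
    _ = 1 := h3

lemma ρP_lower {m y : ℝ} (hm : 0 < m) (hy : |y - 1 / (2 * m)| < 1 / (2 * m)) :
    0 < y ∧ 1 - (2 * m * (y - 1 / (2 * m))) ^ 2 ≤ ρP m y := by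
  have h0 := (abs_lt.1 hy).1
  have hy0 : 0 < y := by linarith
  refine ⟨hy0, ?_⟩
  obtain ⟨t, ht⟩ : ∃ t : ℝ, t = 2 * m * (y - 1 / (2 * m)) := ⟨_, rfl⟩
  have ht2 : 2 * m * y = 1 + t := by
    rw [ht]
    field_simp
    ring
  have hval : ρP m y = (1 + t) * Real.exp (-t) := by
    unfold ρP
    have e1 : Real.exp (-(2 * m * y)) = Real.exp (-1) * Real.exp (-t) := by
      rw [ht2, ← Real.exp_add]
      congr 1
      ring
    have e2 : Real.exp 1 * Real.exp (-1) = 1 := by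
      rw [← Real.exp_add]
      simp
    rw [e1]
    calc 2 * m * Real.exp 1 * (y * (Real.exp (-1) * Real.exp (-t)))
        = (2 * m * y) * (Real.exp 1 * Real.exp (-1)) * Real.exp (-t) := by ring
      _ = _ := by rw [e2, ht2, mul_one]
  rw [← ht, hval]
  have h1 := Real.add_one_le_exp (-t)
  have h2 : 0 ≤ 1 + t := by
    rw [← ht2]
    positivity
  calc 1 - t ^ 2 = (1 + t) * (-t + 1) := by ring
    _ ≤ _ := mul_le_mul_of_nonneg_left h1 h2

/-- the constant -/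
def kP (m : ℝ) : ℝ := √(2 * m * Real.exp 1)

lemma kP_pos {m : ℝ} (hm : 0 < m) : 0 < kP m := Real.sqrt_pos.2 (by positivity)

lemma kP_sq {m : ℝ} (hm : 0 < m) : kP m ^ 2 = 2 * m * Real.exp 1 := Real.sq_sqrt (by positivity)

lemma fPm_eq (m : ℝ) (z : Fin 2 → ℂ) : fPm m z =
    (kP m : ℂ) * cv 1 (WithLp.toLp 2 z) * Complex.exp (-(m * cu 1 (WithLp.toLp 2 z))) := by
  rw [cu_one, cv_one]
  rfl

lemma psP_eq (m : ℝ) (w ζ : ℂ) : psP m w ζ = fun i =>
    Pu 1 (-Complex.I * ζ) (w * Complex.exp (m * (-Complex.I * ζ)) / (kP m : ℂ)) i := by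
  rw [Pu_one]
  rfl

lemma vP_lt {m : ℝ} (hm : 0 < m) {w ζ : ℂ} (h : ζ.im ∈ iP m w) :
    ‖w * Complex.exp (m * (-Complex.I * ζ)) / (kP m : ℂ)‖ ^ 2 < (-Complex.I * ζ).re := by
  have hre : (-Complex.I * ζ).re = ζ.im := by simp
  have hre2 : (m * (-Complex.I * ζ)).re = m * ζ.im := by
    rw [Complex.re_ofReal_mul, hre]
  rw [hre, norm_div, norm_mul, Complex.norm_exp, hre2, Complex.norm_real,
    Real.norm_of_nonneg (kP_pos hm).le, div_pow, kP_sq hm, mul_pow, ← Real.exp_nat_mul]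
  have h1 : ‖w‖ ^ 2 < 2 * m * Real.exp 1 * (ζ.im * Real.exp (-(2 * m * ζ.im))) := h.2
  rw [div_lt_iff₀ (by positivity)]
  have e0 : ((2 : ℕ) : ℝ) * (m * ζ.im) = 2 * m * ζ.im := by
    push_cast
    ring
  rw [e0]
  have h2 := mul_lt_mul_of_pos_right h1 (Real.exp_pos (2 * m * ζ.im))
  refine h2.trans_le (le_of_eq ?_)
  have e1 : Real.exp (-(2 * m * ζ.im)) * Real.exp (2 * m * ζ.im) = 1 := by
    rw [← Real.exp_add]
    simp
  calc 2 * m * Real.exp 1 * (ζ.im * Real.exp (-(2 * m * ζ.im))) * Real.exp (2 * m * ζ.im)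
      = 2 * m * Real.exp 1 * ζ.im * (Real.exp (-(2 * m * ζ.im)) * Real.exp (2 * m * ζ.im)) := by
        ring
    _ = _ := by rw [e1]; ring

lemma FP_lt {m : ℝ} (hm : 0 < m) {z : Fin 2 → ℂ} (hz : z ∈ Bn 2) :
    0 < (cu 1 (WithLp.toLp 2 z)).re ∧ ‖fPm m z‖ ^ 2 < ρP m (cu 1 (WithLp.toLp 2 z)).re := by
  have h1 := chart_lt (ε := 1) (by simp) (toLp_mem hz)
  have h3 := re_pos_of h1
  refine ⟨h3, ?_⟩
  rw [fPm_eq]
  generalize cu 1 (WithLp.toLp 2 z) = u at *
  generalize cv 1 (WithLp.toLp 2 z) = v at *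
  unfold ρP
  rw [norm_mul, norm_mul, Complex.norm_real, Real.norm_of_nonneg (kP_pos hm).le, Complex.norm_exp,
    mul_pow, mul_pow, kP_sq hm, ← Real.exp_nat_mul, Complex.neg_re, Complex.re_ofReal_mul]
  have e1 : ((2 : ℕ) : ℝ) * -(m * u.re) = -(2 * m * u.re) := by
    push_cast
    ring
  rw [e1]
  have h5 : 0 < 2 * m * Real.exp 1 * Real.exp (-(2 * m * u.re)) := by positivity
  have h6 := mul_lt_mul_of_pos_right h1 h5
  calc 2 * m * Real.exp 1 * ‖v‖ ^ 2 * Real.exp (-(2 * m * u.re))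
      = ‖v‖ ^ 2 * (2 * m * Real.exp 1 * Real.exp (-(2 * m * u.re))) := by ring
    _ < _ := h6
    _ = _ := by ring

end H50S

open H50S H50X in
/-- row S4 -/
theorem chp : CHP := by
  intro m hm
  have hk0 : (kP m : ℂ) ≠ 0 := by exact_mod_cast (kP_pos hm).ne'
  have hδ : 0 < 1 / (2 * m) := by positivity
  refine ⟨1 / (2 * m), hδ, ?_, ?_, ?_, ?_, ?_, ?_, ?_, ?_, ?_, ?_, ?_⟩
  · -- dF
    have h1 := cu_diff (ε := 1) (by simp)
    have h2 := cv_diff (ε := 1) (by simp)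
    have h3 : DifferentiableOn ℂ (fun Z : Cn 2 => (kP m : ℂ) * cv 1 Z *
        Complex.exp (-(m * cu 1 Z))) (ball 0 1) :=
      (h2.const_mul (kP m : ℂ)).mul (h1.const_mul (m : ℂ)).neg.cexp
    have h4 : Differentiable ℂ (fun z : Fin 2 → ℂ => (WithLp.toLp 2 z : Cn 2)) :=
      (PiLp.continuousLinearEquiv 2 ℂ (fun _ : Fin 2 => ℂ)).symm.differentiable
    have h5 := h3.comp h4.differentiableOn (s := Bn 2) fun z hz => toLp_mem hz
    refine h5.congr fun z _ => ?_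
    rw [fPm_eq]
    rfl
  · -- lt
    intro z hz
    have h1 := (FP_lt hm hz).2.trans_le (ρP_le m _)
    nlinarith [norm_nonneg (fPm m z)]
  · -- zero
    unfold fPm
    simp
  · -- opn
    intro w _
    have h1 : IsOpen {y | y ∈ Ioi (0 : ℝ) ∧ ‖w‖ ^ 2 < ρP m y} :=
      isOpen_Ioi.inter (isOpen_lt continuous_const (ρP_cont m))
    exact h1
  · -- conn
    intro w _
    exact ordConn_of ordConnected_Ioi (ρP_mono hm) (ρP_anti hm) (‖w‖ ^ 2)
  · -- sub
    intro w hw y hy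
    have hp : 0 < 1 - ‖w‖ ^ 2 := by nlinarith [norm_nonneg w]
    have h3 : √(1 - ‖w‖ ^ 2) ≤ 1 := by
      rw [Real.sqrt_le_one]
      have := sq_nonneg ‖w‖
      linarith
    have h4 : |y - 1 / (2 * m)| < 1 / (2 * m) :=
      hy.trans_le (mul_le_of_le_one_right hδ.le h3)
    obtain ⟨h5, h6⟩ := ρP_lower hm h4
    refine ⟨h5, ?_⟩
    have h7 : (2 * m * (y - 1 / (2 * m))) ^ 2 < 1 - ‖w‖ ^ 2 := by
      have h8 : |2 * m * (y - 1 / (2 * m))| < √(1 - ‖w‖ ^ 2) := by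
        rw [abs_mul, abs_of_pos (by positivity : 0 < 2 * m)]
        have h9 := mul_lt_mul_of_pos_left hy (by positivity : 0 < 2 * m)
        refine h9.trans_le (le_of_eq ?_)
        field_simp
      have h10 := pow_lt_pow_left₀ h8 (abs_nonneg _) two_ne_zero
      rwa [sq_abs, Real.sq_sqrt hp.le] at h10
    have h8 : ‖w‖ ^ 2 < ρP m y := by linarith
    exact h8
  · -- mem
    intro w ζ _ h
    rw [psP_eq]
    exact mem_toBn (Pu_mem (by simp) (vP_lt hm h))
  · -- val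
    intro w ζ _ h
    have h1 := vP_lt hm h
    have h2 := re_pos_of h1
    rw [psP_eq, fPm_eq]
    have e1 : (WithLp.toLp 2 (fun i => Pu 1 (-Complex.I * ζ)
        (w * Complex.exp (m * (-Complex.I * ζ)) / (kP m : ℂ)) i) : Cn 2) =
        Pu 1 (-Complex.I * ζ) (w * Complex.exp (m * (-Complex.I * ζ)) / (kP m : ℂ)) := rfl
    rw [e1, cv_Pu (by simp) h2, cu_Pu (by simp) h2, Complex.exp_neg]
    have := Complex.exp_ne_zero (m * (-Complex.I * ζ))
    field_simp
  · -- dz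
    intro w _
    have h1 : DifferentiableOn ℂ (fun ζ => Pu 1 (-Complex.I * ζ)
        (w * Complex.exp (m * (-Complex.I * ζ)) / (kP m : ℂ))) {ζ : ℂ | ζ.im ∈ iP m w} :=
      Pu_diff (by simp) (by fun_prop) (by fun_prop) fun t ht => re_pos_of (vP_lt hm ht)
    rw [differentiableOn_euclidean] at h1
    rw [differentiableOn_pi]
    intro i
    have e1 : (fun ζ => psP m w ζ i) = fun ζ => Pu 1 (-Complex.I * ζ)
        (w * Complex.exp (m * (-Complex.I * ζ)) / (kP m : ℂ)) i := by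
      funext ζ
      rw [psP_eq]
    rw [e1]
    exact h1 i
  · -- dw
    intro ζ hζ
    have hre : (-Complex.I * ζ).re = ζ.im := by simp
    have h1 : DifferentiableOn ℂ (fun w => Pu 1 (-Complex.I * ζ)
        (w * Complex.exp (m * (-Complex.I * ζ)) / (kP m : ℂ))) (ball 0 1) :=
      Pu_diff (by simp) (differentiableOn_const _) (by fun_prop) fun t _ => by
        rw [hre, hζ]
        exact hδ
    rw [differentiableOn_euclidean] at h1
    rw [differentiableOn_pi]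
    intro i
    have e1 : (fun w => psP m w ζ i) = fun w => Pu 1 (-Complex.I * ζ)
        (w * Complex.exp (m * (-Complex.I * ζ)) / (kP m : ℂ)) i := by
      funext w
      rw [psP_eq]
    rw [e1]
    exact h1 i
  · -- surj
    intro z hz
    obtain ⟨h1, h2⟩ := FP_lt hm hz
    have h3 := chart_inv (ε := 1) (by simp) (toLp_mem hz)
    refine ⟨Complex.I * cu 1 (WithLp.toLp 2 z), ?_, ?_⟩
    · have e1 : (Complex.I * cu 1 (WithLp.toLp 2 z)).im = (cu 1 (WithLp.toLp 2 z)).re := by simp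
      rw [e1]
      exact ⟨h1, h2⟩
    · have e0 : -Complex.I * (Complex.I * cu 1 (WithLp.toLp 2 z)) = cu 1 (WithLp.toLp 2 z) := by
        rw [← mul_assoc, neg_mul, Complex.I_mul_I]
        ring
      rw [psP_eq, e0]
      have e1 : fPm m z * Complex.exp (m * cu 1 (WithLp.toLp 2 z)) / (kP m : ℂ) =
          cv 1 (WithLp.toLp 2 z) := by
        rw [fPm_eq, Complex.exp_neg]
        have := Complex.exp_ne_zero (m * cu 1 (WithLp.toLp 2 z))
        field_simp
      rw [e1, h3]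

end

end Pool.Agent.Lib.MP_6ff8d9_an.N2
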