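import Pool.Agent.Lib.MP_6ff8d9_an_h8.SymRows
import Pool.Agent.Lib.MP_6ff8d9_an_h50.Fib

/-!
# MP_6ff8d9 symmetric rows, S1: a function with a chart is extreme
-/

open Metric Set Filter Topology
open scoped ComplexConjugate

namespace Pool.Agent.Lib.MP_6ff8d9_an.N2

open Pool.Agent.Lib.MP_6ff8d9_an Pool.Agent.Lib.MP_6ff8d9_an.H22

noncomputable section

namespace H50S

lemma toLp_mem {z : Fin 2 → ℂ} (hz : z ∈ Bn 2) : (WithLp.toLp 2 z : Cn 2) ∈ ball (0 : Cn 2) 1 := by
  have h1 : ∑ i, ‖z i‖ ^ 2 < 1 := hz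
  rw [mem_ball_zero_iff, EuclideanSpace.norm_eq, Real.sqrt_lt' one_pos, one_pow]
  exact h1

lemma mem_toBn {z : Cn 2} (hz : z ∈ ball (0 : Cn 2) 1) : (fun i => z i) ∈ Bn 2 := by
  rw [mem_ball_zero_iff, EuclideanSpace.norm_eq, Real.sqrt_lt' one_pos, one_pow] at hz
  exact hz

lemma fibred_of {F : (Fin 2 → ℂ) → ℂ} {Ps : ℂ → ℂ → Fin 2 → ℂ} {I : ℂ → Set ℝ} {y₀ δ : ℝ}
    (h : FChart F Ps I y₀ δ) :
    H50X.Fibred 2 (fun z => F (fun i => z i))
      (fun w s => WithLp.toLp 2 (Ps w (Complex.I * s))) (fun w => {s : ℂ | s.re ∈ I w}) y₀ δ := by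
  have hw : ∀ w ∈ ball (0 : ℂ) 1, ‖w‖ < 1 := fun w hw => mem_ball_zero_iff.1 hw
  have him : ∀ s : ℂ, (Complex.I * s).im = s.re := fun s => by simp
  refine ⟨h.δpos, ?_, ?_, ?_, ?_, ?_, ?_, ?_, ?_, ?_⟩
  · have h1 : Differentiable ℂ fun z : Cn 2 => (fun i => z i : Fin 2 → ℂ) :=
      ((PiLp.continuousLinearEquiv 2 ℂ (fun _ : Fin 2 => ℂ))).differentiable
    exact h.dF.comp h1.differentiableOn fun z hz => mem_toBn hz
  · exact h.zero
  · intro w hw1 s hs
    have hs' : (Complex.I * s).im ∈ I w := by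
      rw [him]
      exact hs
    exact ⟨toLp_mem (h.mem w _ (hw w hw1) hs'), h.val w _ (hw w hw1) hs'⟩
  · intro z hz
    obtain ⟨ζ, h1, h2⟩ := h.surj _ (mem_toBn hz)
    refine ⟨mem_ball_zero_iff.2 (h.lt _ (mem_toBn hz)), -(Complex.I * ζ), ?_, ?_⟩
    · have e1 : (-(Complex.I * ζ)).re = ζ.im := by simp
      change (-(Complex.I * ζ)).re ∈ I _
      rw [e1]
      exact h1
    · have e0 : Complex.I * -(Complex.I * ζ) = ζ := by
        rw [mul_neg, ← mul_assoc, Complex.I_mul_I]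
        ring
      simp only
      rw [e0, h2]
  · intro w hw1
    exact (h.opn w (hw w hw1)).preimage Complex.continuous_re
  · intro w hw1
    have hc : Convex ℝ (I w) := convex_iff_ordConnected.2 (h.conn w (hw w hw1))
    exact (hc.linear_preimage Complex.reLm).isPreconnected
  · intro w hw1 y s hs
    refine h.sub w (hw w hw1) _ ?_
    rw [mem_ball, dist_eq_norm] at hs
    have h2 := Complex.abs_re_le_norm (s - ((y₀ : ℂ) + y * Complex.I))
    have h3 : (s - ((y₀ : ℂ) + y * Complex.I)).re = s.re - y₀ := by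
      rw [Complex.sub_re, Complex.add_re, Complex.ofReal_re, Complex.re_ofReal_mul, Complex.I_re,
        mul_zero, add_zero]
    rw [h3] at h2
    exact h2.trans_lt hs
  · intro w hw1
    have h1 : DifferentiableOn ℂ (fun s => Ps w (Complex.I * s)) {s : ℂ | s.re ∈ I w} :=
      (h.dz w (hw w hw1)).comp (by fun_prop) fun s hs => by
        change (Complex.I * s).im ∈ I w
        rw [him]
        exact hs
    rw [differentiableOn_euclidean]
    exact differentiableOn_pi.1 h1
  · intro y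
    have h1 := h.dw (Complex.I * ((y₀ : ℂ) + y * Complex.I)) (by
      rw [him, Complex.add_re, Complex.ofReal_re, Complex.re_ofReal_mul, Complex.I_re, mul_zero,
        add_zero])
    rw [differentiableOn_euclidean]
    exact differentiableOn_pi.1 h1

end H50S

/-- row S1 -/
theorem chx : CHX := by
  intro F Ps I y₀ δ h c hc
  exact (H50S.fibred_of h).extreme hc

end

end Pool.Agent.Lib.MP_6ff8d9_an.N2
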