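import Pool.Agent.Lib.MP_6ff8d9_an_h69.FinalU

/-!
# MP_6ff8d9 THEOREM U with uniqueness

Every holomorphic `F : ball → disc` with `F 0 = 0`, `F ≠ 0`, is `h ∘ W` with `W` prime and onto the
disc, and `W` is unique up to a rotation.
-/

open Metric Filter Topology Set
open scoped ComplexConjugate

namespace Pool.Agent.Lib.MP_6ff8d9_an.P69

open Pool.Agent.Lib.MP_6ff8d9_an Pool.Agent.Lib.MP_6ff8d9_an.H11

noncomputable section

variable {n : ℕ}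

/-- `F = h ∘ W` with `W` prime, onto, `W 0 = 0` -/
structure UDec (n : ℕ) (F W : Cn n → ℂ) (h : ℂ → ℂ) : Prop where
  hol : Hol n W
  zero : W 0 = 0
  prime : PrimeF n W
  onto : ∀ w0 ∈ ball (0 : ℂ) 1, ∃ z ∈ ball (0 : Cn n) 1, W z = w0
  dh : DifferentiableOn ℂ h (ball 0 1)
  h0 : h 0 = 0
  hlt : ∀ w ∈ ball (0 : ℂ) 1, ‖h w‖ < 1
  eq : ∀ z ∈ ball (0 : Cn n) 1, F z = h (W z)

namespace UDec

variable {F W W1 W2 : Cn n → ℂ} {h h1 h2 : ℂ → ℂ}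

lemma dep (H : UDec n F W h) : Dep F W := by
  have h1 : Dep W (fun z => h (W z)) := by
    refine dep_comp H.hol.an (dep_self W) fun z hz => ?_
    exact H.dh.differentiableAt (isOpen_ball.mem_nhds (mem_ball_zero_iff.2 (H.hol.lt z hz)))
  intro z hz v v'
  have h2 : F =ᶠ[𝓝 z] fun y => h (W y) := by
    filter_upwards [isOpen_ball.mem_nhds hz] with y hy using H.eq y hy
  rw [h2.fderiv_eq]
  have h3 := h1 z hz v' v
  linear_combination h3

/-- the transition function of two decompositions -/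
lemma trans (H1 : UDec n F W1 h1) (H2 : UDec n F W2 h2) (hF : Hol n F) {e : Cn n}
    (hne : (Oe F e).Nonempty) : ∃ K : ℂ → ℂ, DifferentiableOn ℂ K (ball 0 1) ∧
      (∀ z ∈ ball (0 : Cn n) 1, W2 z = K (W1 z)) ∧ MapsTo K (ball 0 1) (ball 0 1) ∧ K 0 = 0 := by
  have h1 : Dep W1 W2 := dep_trans hF.an H1.hol.an H2.hol.an hne H1.dep H2.dep
  obtain ⟨K, hK, hKe⟩ := H1.prime W2 H2.hol.an h1
  refine ⟨K, hK, hKe, fun w hw => ?_, ?_⟩
  · obtain ⟨z, hz, rfl⟩ := H1.onto w hw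
    rw [← hKe z hz]
    exact mem_ball_zero_iff.2 (H2.hol.lt z hz)
  · have h2 := hKe 0 (mem_ball_self one_pos)
    rw [H1.zero, H2.zero] at h2
    exact h2.symm

/-- **uniqueness** -/
theorem unique (H1 : UDec n F W1 h1) (H2 : UDec n F W2 h2) (hF : Hol n F) (hF0 : F 0 = 0)
    (hne : ∃ z ∈ ball (0 : Cn n) 1, F z ≠ 0) :
    ∃ c : ℂ, ‖c‖ = 1 ∧ (∀ z ∈ ball (0 : Cn n) 1, W2 z = c * W1 z) ∧
      ∀ w ∈ ball (0 : ℂ) 1, h1 w = h2 (c * w) := by
  obtain ⟨e, hOe⟩ := exists_Oe11 hF hF0 hne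
  obtain ⟨K, hK, hKe, hKm, hK0⟩ := H1.trans H2 hF hOe
  obtain ⟨L, hL, hLe, hLm, hL0⟩ := H2.trans H1 hF hOe
  have hKn : ∀ w ∈ ball (0 : ℂ) 1, ‖K w‖ = ‖w‖ := by
    intro w hw
    obtain ⟨z, hz, rfl⟩ := H1.onto w hw
    refine le_antisymm ?_ ?_
    · exact Complex.norm_le_norm_of_mapsTo_ball hK (fun x hx => ball_subset_closedBall (hKm hx))
        hK0 (mem_ball_zero_iff.1 hw)
    · have h3 := Complex.norm_le_norm_of_mapsTo_ball hL
        (fun x hx => ball_subset_closedBall (hLm hx)) hL0 (H2.hol.lt z hz)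
      rw [← hLe z hz, hKe z hz] at h3
      exact h3
  have hhalf : (1 / 2 : ℂ) ∈ ball (0 : ℂ) 1 := by
    rw [mem_ball_zero_iff]
    norm_num
  have hne2 : (1 / 2 : ℂ) ≠ 0 := by norm_num
  have hds : ‖dslope K 0 (1 / 2)‖ = 1 / 1 := by
    rw [dslope_of_ne _ hne2, slope_def_field, hK0, sub_zero, sub_zero, norm_div, hKn _ hhalf,
      div_self (norm_ne_zero_iff.2 hne2), div_one]
  have hmaps : MapsTo K (ball 0 1) (closedBall (K 0) 1) := by
    rw [hK0]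
    exact fun x hx => ball_subset_closedBall (hKm hx)
  have haff := Complex.affine_of_mapsTo_ball_of_norm_dslope_eq_div hK hmaps hhalf hds
  refine ⟨dslope K 0 (1 / 2), by rw [hds, div_one], ?_, ?_⟩
  · intro z hz
    have hw : W1 z ∈ ball (0 : ℂ) 1 := mem_ball_zero_iff.2 (H1.hol.lt z hz)
    rw [hKe z hz, haff hw]
    simp only [hK0, sub_zero, zero_add, smul_eq_mul]
    ring
  · intro w hw
    obtain ⟨z, hz, rfl⟩ := H1.onto w hw
    have h3 : W2 z = dslope K 0 (1 / 2) * W1 z := by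
      rw [hKe z hz, haff hw]
      simp only [hK0, sub_zero, zero_add, smul_eq_mul]
      ring
    rw [← H1.eq z hz, H2.eq z hz, h3]

end UDec

/-- **theorem U with uniqueness** -/
theorem uuniq {F : Cn n → ℂ} (hF : Hol n F) (hF0 : F 0 = 0)
    (hne : ∃ z ∈ ball (0 : Cn n) 1, F z ≠ 0) :
    (∃ (W : Cn n → ℂ) (h : ℂ → ℂ), UDec n F W h) ∧
      ∀ (W1 W2 : Cn n → ℂ) (h1 h2 : ℂ → ℂ), UDec n F W1 h1 → UDec n F W2 h2 →
        ∃ c : ℂ, ‖c‖ = 1 ∧ (∀ z ∈ ball (0 : Cn n) 1, W2 z = c * W1 z) ∧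
          ∀ w ∈ ball (0 : ℂ) 1, h1 w = h2 (c * w) := by
  refine ⟨?_, fun W1 W2 h1 h2 H1 H2 => H1.unique H2 hF hF0 hne⟩
  obtain ⟨W, h, a, b, c, d, e, f, g, i⟩ := H69F.unif n F hF hF0 hne
  exact ⟨W, h, a, b, c, d, e, f, g, i⟩

end

end Pool.Agent.Lib.MP_6ff8d9_an.P69
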